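import Pool.Agent.NH78.PY.Stm

/-!
PY-ALL: all large `n`, by the exchange of gadgets.
-/

set_option autoImplicit false

namespace Pool.Agent.NH78.PY

open Finset
open Pool.Agent.NH9.PX (PR Ev Od)

namespace ALLAux

theorem le16 {Q a : ℤ} (hQ : 1 ≤ Q) : a % (8 * Q) ≤ a % (16 * Q) := by
  have h1 : a % (8 * Q) = a % (16 * Q) % (8 * Q) :=
    (Int.emod_emod_of_dvd a ⟨2, by ring⟩).symm
  have h2 : 0 ≤ a % (16 * Q) := Int.emod_nonneg _ (by omega)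
  rw [h1]
  have h3 := Int.emod_add_mul_ediv (a % (16 * Q)) (8 * Q)
  have h4 : 0 ≤ a % (16 * Q) / (8 * Q) := Int.ediv_nonneg h2 (by omega)
  have h5 : 0 ≤ 8 * Q * (a % (16 * Q) / (8 * Q)) := mul_nonneg (by omega) h4
  linarith

theorem res1 {Q δ a t : ℤ} (hQ : 1 ≤ Q) (h : 8 * Q ∣ a - t) (ht : δ < t % (8 * Q)) :
    δ < a % (16 * Q) := by
  have h1 : a % (8 * Q) = t % (8 * Q) := (Int.emod_emod_of_dvd a (dvd_refl _)).symm.trans
    (by rw [Int.emod_emod_of_dvd a (dvd_refl _)]; exact Int.emod_eq_emod_iff_emod_sub_eq_zero.2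
          (Int.emod_eq_zero_of_dvd h))
  have h2 := le16 (a := a) hQ
  omega

theorem res2 {Q δ a t : ℤ} (hQ : 1 ≤ Q) (hδ : 0 < δ) (h : 8 * Q ∣ a + t - δ)
    (ht : δ < t % (8 * Q)) : δ < a % (16 * Q) := by
  have h0 : t % (8 * Q) < 8 * Q := Int.emod_lt_of_pos _ (by omega)
  have h1 : a % (8 * Q) = 8 * Q + δ - t % (8 * Q) := by
    have e1 : (a - (8 * Q + δ - t % (8 * Q))) % (8 * Q) = 0 := by
      apply Int.emod_eq_zero_of_dvd
      have e2 : a - (8 * Q + δ - t % (8 * Q)) = (a + t - δ) - 8 * Q * (t / (8 * Q)) - 8 * Q := by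
        have := Int.emod_add_mul_ediv t (8 * Q)
        linarith
      rw [e2]
      exact dvd_sub (dvd_sub h (dvd_mul_right _ _)) (dvd_refl _)
    have e3 := Int.emod_eq_emod_iff_emod_sub_eq_zero.2 e1
    rw [e3]
    exact Int.emod_eq_of_lt (by omega) (by omega)
  have h2 := le16 (a := a) hQ
  omega

end ALLAux

open ALLAux in
theorem t_ALL (hG : S_GDT) (hA : S_ATT) (hE : S_EXC) : S_ALL := by
  intro D hD4 hD
  obtain ⟨Q, δ, 𝒯, hQ, hδ0, hδ8, hne, hT1, hT2, hgad⟩ := hG D hD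
  obtain ⟨g, hg0, hgood⟩ := hA Q δ 𝒯 D hQ hδ0 hne hD4 hD hT1 hT2
  obtain ⟨W, G, G', hW, hk, hdis⟩ := hgad g (16 * (Q : ℤ) * ((D : ℤ) + 2))
  obtain ⟨r₀, hr⟩ := hgood W
  have hQ' : (1 : ℤ) ≤ Q := by exact_mod_cast hQ
  have hW0 : 0 < 16 * (Q : ℤ) * ((D : ℤ) + 2) := by positivity
  refine ⟨Q, δ, r₀, hQ, hδ0, hδ8, fun n hn => ?_⟩
  obtain ⟨A, hcard, hIA⟩ := hr ((n - r₀) / g)
  have hi : (n - r₀) % g < g := Nat.mod_lt _ hg0
  have hin : r₀ + g * ((n - r₀) / g) + (n - r₀) % g = n := by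
    have := Nat.div_add_mod (n - r₀) g
    omega
  have hsub : ∀ k < (n - r₀) % g, G' k ⊆ A := by
    intro k hk' a ha
    obtain ⟨-, -, h3, h4, -⟩ := hk k (hk'.trans hi)
    obtain ⟨h5, h6⟩ := h3 a ha
    obtain ⟨t, ht, h7⟩ := h4 a ha
    exact (hIA.near a (abs_le.2 ⟨h5, by linarith⟩)).2 ⟨t, ht, Or.inl h7⟩
  have hdj : ∀ k < (n - r₀) % g, Disjoint (G k) A := by
    intro k hk'
    rw [Finset.disjoint_left]
    intro a ha haA
    obtain ⟨-, h2, -, -, h5⟩ := hk k (hk'.trans hi)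
    obtain ⟨h6, h7⟩ := h2 a ha
    obtain ⟨t, ht, h8⟩ := (hIA.near a (abs_le.2 ⟨h6, by linarith⟩)).1 haA
    have h9 := (h5 a ha).2 t ht
    rcases h8 with h8 | h8
    · exact h9.1 h8
    · exact h9.2 h8
  obtain ⟨A', hc', heq, hmem, hout⟩ := hE Q δ D ((n - r₀) % g) A G G' hIA.eq
    (fun k hk' => (hk k (hk'.trans hi)).1) hsub hdj
    (fun k hk' l hl' hkl => hdis k (hk'.trans hi) l (hl'.trans hi) hkl)
  refine ⟨A', ?_, heq, ?_, ?_⟩
  · rw [hc', hcard]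
    exact hin
  · intro a ha
    rcases hmem a ha with haA | ⟨k, hk', hak⟩
    · obtain ⟨t, ht, h1⟩ := hIA.cls a haA
      have h2 := (hT1 t ht).1
      rcases h1 with h1 | h1
      · exact res1 hQ' h1 h2
      · exact res2 hQ' hδ0 h1 h2
    · obtain ⟨-, -, -, -, h5⟩ := hk k (hk'.trans hi)
      exact (h5 a hak).1
  · obtain ⟨a, haA, hWa⟩ := hIA.far
    refine ⟨a, ?_, by linarith⟩
    by_contra hno
    obtain ⟨k, hk', hak⟩ := hout a haA hno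
    obtain ⟨-, -, h3, -, -⟩ := hk k (hk'.trans hi)
    have h4 := (h3 a hak).2
    linarith

end Pool.Agent.NH78.PY
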