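import Pool.Agent.NH78.PY.Stm

/-!
PY-ATT: all classes (helper95).
-/

set_option autoImplicit false

namespace Pool.Agent.NH78.PY

open Finset

private theorem att_one (hP : S_PRG) (hR : S_REF) (hS : S_SCL) (Q : ℕ) (δ t : ℤ) (D : ℕ)
    (hQ : 1 ≤ Q) (hδ : 0 < δ) (hD : D % 4 = 0) (hD4 : 4 ≤ D) (h1 : δ < t % (8 * Q))
    (h2 : ¬ (8 * (Q : ℤ)) ∣ 2 * t - δ) (v Q' : ℕ) (δ' t' : ℤ) (ht' : t' % 2 = 1)
    (hδ' : δ' % 2 = 0) (eQ : Q = 2 ^ v * Q') (eδ : δ = 2 ^ v * δ') (et : t = 2 ^ v * t') :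
    Good Q δ {t} D := by
  have hv : (0 : ℤ) < 2 ^ v := by positivity
  have hQ' : 1 ≤ Q' := by
    rcases Nat.eq_zero_or_pos Q' with h | h
    · rw [h] at eQ
      omega
    · exact h
  have hδ'0 : 0 < δ' := by
    rw [eδ] at hδ
    exact pos_of_mul_pos_right hδ hv.le
  have hcast : (8 * (Q : ℤ)) = 2 ^ v * (8 * (Q' : ℤ)) := by
    rw [eQ]
    push_cast
    ring
  have h1' : δ' < t' % (8 * Q') := by
    rw [hcast, et, eδ, Int.mul_emod_mul_of_pos _ _ hv] at h1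
    exact lt_of_mul_lt_mul_left h1 hv.le
  have h2' : ¬ (8 * (Q' : ℤ)) ∣ 2 * t' - δ' := by
    intro h
    apply h2
    rw [hcast, et, eδ]
    have : 2 * (2 ^ v * t') - 2 ^ v * δ' = 2 ^ v * (2 * t' - δ') := by ring
    rw [this]
    exact mul_dvd_mul_left _ h
  have hG : Good Q' δ' {t'} D := by
    obtain ⟨g, hg, H⟩ := hP Q' δ' t' D hQ' hδ'0.le hδ' ht' (by omega)
    refine ⟨2 * g, by omega, fun W => ?_⟩
    obtain ⟨r₀, Hr⟩ := H (|W| + 16 * Q' * (D + 2))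
    refine ⟨2 * r₀, fun j => ?_⟩
    obtain ⟨R, hRc, hRR⟩ := Hr j
    obtain ⟨A, hAc, hA⟩ := hR Q' δ' t' D W R hQ' hδ'0 hδ' ht' h1' h2' hD hD4 hRR
    refine ⟨A, ?_, hA⟩
    rw [hAc, hRc]
    ring
  have h3 := hS v Q' δ' t' D hQ' hG
  rw [← eQ, ← eδ, ← et] at h3
  exact h3

theorem t_ATT (hP : S_PRG) (hR : S_REF) (hS : S_SCL) (hU : S_UNI) : S_ATT := by
  intro Q δ 𝒯 D hQ hδ hne hD hD4 hc1 hc2
  have hone : ∀ t ∈ 𝒯, Good Q δ {t} D := by
    intro t ht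
    obtain ⟨h1, h2, v, Q', δ', t', ht', hδ', eQ, eδ, et⟩ := hc1 t ht
    exact att_one hP hR hS Q δ t D hQ hδ hD hD4 h1 h2 v Q' δ' t' ht' hδ' eQ eδ et
  have key : ∀ S : Finset ℤ, S ⊆ 𝒯 → S.Nonempty → Good Q δ S D := by
    intro S
    induction S using Finset.induction_on with
    | empty => exact fun _ h => absurd h Finset.not_nonempty_empty
    | insert t S htS ih =>
      intro hsub _
      have htT : t ∈ 𝒯 := hsub (Finset.mem_insert_self t S)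
      have hST : S ⊆ 𝒯 := fun s hs => hsub (Finset.mem_insert_of_mem hs)
      rcases S.eq_empty_or_nonempty with h0 | h0
      · rw [h0]
        exact hone t htT
      · refine hU Q δ S t D hQ (fun t' ht' => ?_) (ih hST h0) (hone t htT)
        exact hc2 t htT t' (hST ht') (fun e => htS (e ▸ ht'))
  exact key 𝒯 (Finset.Subset.refl 𝒯) hne

end Pool.Agent.NH78.PY
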