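import Pool.Agent.NH78.PY.Stm

/-!
# PY-DAT (helper17): the data for the theorem on class groups
-/

set_option autoImplicit false

namespace Pool.Agent.NH78.PY

open Finset Polynomial
open Pool.Agent.NH9.PX (PR)

namespace DAT

theorem bb_def (Q : ℕ) (δ : ℤ) (i : ℕ) :
    bb Q δ i = 16 * Q * ((i / 2 : ℕ) : ℤ) + δ * ((i % 2 : ℕ) : ℤ) - 16 * Q := rfl

theorem mod_two_cast (i : ℕ) : ((i % 2 : ℕ) : ℤ) = 0 ∨ ((i % 2 : ℕ) : ℤ) = 1 := by
  rcases Nat.mod_two_eq_zero_or_one i with h | h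
  · left
    rw [h]
    rfl
  · right
    rw [h]
    rfl

theorem bb_aux {Q : ℕ} {δ : ℤ} (hQ : 1 ≤ Q) (h0 : 0 < δ) (h8 : δ < 8 * Q) {i j : ℕ}
    (h : bb Q δ i = bb Q δ j) (hlt : i / 2 < j / 2) : False := by
  rw [bb_def, bb_def] at h
  have hQ' : (1 : ℤ) ≤ Q := by exact_mod_cast hQ
  have h1 : ((i / 2 : ℕ) : ℤ) + 1 ≤ ((j / 2 : ℕ) : ℤ) := by exact_mod_cast hlt
  have h2 : 16 * (Q : ℤ) * (((i / 2 : ℕ) : ℤ) + 1) ≤ 16 * (Q : ℤ) * ((j / 2 : ℕ) : ℤ) :=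
    mul_le_mul_of_nonneg_left h1 (by linarith)
  rcases mod_two_cast i with h3 | h3 <;> rcases mod_two_cast j with h4 | h4 <;>
    rw [h3, h4] at h <;> linarith

theorem bb_inj {Q : ℕ} {δ : ℤ} (hQ : 1 ≤ Q) (h0 : 0 < δ) (h8 : δ < 8 * Q) {i j : ℕ}
    (h : bb Q δ i = bb Q δ j) : i = j := by
  rcases lt_trichotomy (i / 2) (j / 2) with h1 | h1 | h1
  · exact (bb_aux hQ h0 h8 h h1).elim
  · have h2 := h
    rw [bb_def, bb_def, h1] at h2
    have h3 : δ * ((i % 2 : ℕ) : ℤ) = δ * ((j % 2 : ℕ) : ℤ) := by linarith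
    have h4 : ((i % 2 : ℕ) : ℤ) = ((j % 2 : ℕ) : ℤ) := mul_left_cancel₀ h0.ne' h3
    have h5 : i % 2 = j % 2 := by exact_mod_cast h4
    omega
  · exact (bb_aux hQ h0 h8 h.symm h1).elim

theorem bb_even (Q : ℕ) (δ : ℤ) {j : ℕ} (h : j % 2 = 0) :
    bb Q δ (j + 1) = bb Q δ j + δ ∧ bb Q δ j = 16 * Q * (((j / 2 : ℕ) : ℤ) - 1) := by
  have h1 : (j + 1) / 2 = j / 2 := by omega
  have h2 : (j + 1) % 2 = 1 := by omega
  rw [bb_def, bb_def, h1, h2, h]
  constructor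
  · push_cast
    ring
  · push_cast
    ring

theorem prod_enum {M : Type} [CommMonoid M] (A : Finset ℤ) (f : ℤ → M) :
    ∏ i : Fin A.card, f ((A.equivFin.symm i : A) : ℤ) = ∏ a ∈ A, f a := by
  rw [Equiv.prod_comp A.equivFin.symm (fun x : A => f (x : ℤ)), Finset.prod_coe_sort A f]

end DAT

open DAT in
theorem t_DAT (hA : S_ALL) (hD : S_DER) : S_DAT := by
  intro k
  obtain ⟨D, hDk⟩ : ∃ D, D = 4 * (k + 1) := ⟨_, rfl⟩
  obtain ⟨Q, δ, n₀, hQ, hδ, hδ8, hall⟩ := hA D (by omega) (by omega)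
  refine ⟨n₀, fun n hn => ?_⟩
  obtain ⟨A, hcard, ⟨c, hc, hval⟩, hAmod, ⟨a₀, ha₀A, hBa₀⟩⟩ := hall n hn
  subst hcard
  have hQ' : (1 : ℤ) ≤ Q := by exact_mod_cast hQ
  have hpA : Pool.Agent.W289.CG.pA (fun i : Fin A.card => ((A.equivFin.symm i : A) : ℤ)) =
      ∏ a ∈ A, (X - Polynomial.C a) := by
    unfold Pool.Agent.W289.CG.pA
    exact prod_enum A (fun a => X - Polynomial.C a)
  have heval : ∀ x : ℤ, (∏ a ∈ A, (X - Polynomial.C a)).eval x = PR A x := by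
    intro x
    unfold PR
    rw [Polynomial.eval_prod]
    refine Finset.prod_congr rfl fun a _ => ?_
    simp
  have hder : ∀ j : ℕ, j % 2 = 0 → j + 1 < D + 2 →
      (derivative (∏ a ∈ A, (X - Polynomial.C a))).eval (bb Q δ j) ≠ 0 ∧
      (derivative (∏ a ∈ A, (X - Polynomial.C a))).eval (bb Q δ j + δ) ≠ 0 := by
    intro j hj hjD
    obtain ⟨h1, h2⟩ := bb_even Q δ hj
    refine hD A (bb Q δ j) δ hδ ⟨a₀, ha₀A⟩ ?_ ?_
    · intro a ha
      have h3 := hAmod a ha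
      by_contra h6
      push Not at h6
      have h7 : a % (16 * Q) = a - bb Q δ j := by
        have h8 : (a - 16 * Q * (((j / 2 : ℕ) : ℤ) - 1)) % (16 * Q) = a % (16 * Q) :=
          Int.sub_mul_emod_self_left _ _ _
        rw [← h2] at h8
        rw [← h8]
        refine Int.emod_eq_of_lt ?_ ?_
        · linarith [h6.1]
        · linarith [h6.2]
      rw [h7] at h3
      linarith [h6.2]
    · rw [← h1, hval j (by omega), hval (j + 1) hjD]
  refine ⟨{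
    a := fun i => ((A.equivFin.symm i : A) : ℤ)
    b := fun j => bb Q δ j
    c := c
    ha := ?_
    hb := ?_
    hc := hc
    hab := ?_
    hder := ?_
    hlt := ?_ }⟩
  · intro i j hij
    exact A.equivFin.symm.injective (Subtype.ext hij)
  · intro i j hij
    exact Fin.ext (bb_inj hQ hδ hδ8 hij)
  · intro j
    rw [hpA, heval]
    have := j.2
    exact hval j (by omega)
  · intro j
    rw [hpA]
    have hj := j.2
    rcases Nat.mod_two_eq_zero_or_one (j : ℕ) with h | h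
    · exact (hder j h (by omega)).1
    · have h1 : ((j : ℕ) - 1) % 2 = 0 := by omega
      have h2 := (hder ((j : ℕ) - 1) h1 (by omega)).2
      rw [← (bb_even Q δ h1).1, Nat.sub_add_cancel (by omega)] at h2
      exact h2
  · intro j
    refine ⟨A.equivFin ⟨a₀, ha₀A⟩, ?_⟩
    have hj := j.2
    show bb Q δ j < ((A.equivFin.symm (A.equivFin ⟨a₀, ha₀A⟩) : A) : ℤ)
    rw [Equiv.symm_apply_apply, bb_def]
    show _ < a₀
    have h1 : (((j : ℕ) / 2 : ℕ) : ℤ) ≤ (D : ℤ) := by exact_mod_cast (by omega : (j : ℕ) / 2 ≤ D)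
    have h2 : 16 * (Q : ℤ) * (((j : ℕ) / 2 : ℕ) : ℤ) ≤ 16 * (Q : ℤ) * D :=
      mul_le_mul_of_nonneg_left h1 (by linarith)
    have h3 : 16 * (Q : ℤ) * ((D : ℤ) + 2) = 16 * (Q : ℤ) * D + 32 * Q := by ring
    rw [h3] at hBa₀
    rcases mod_two_cast (j : ℕ) with h4 | h4 <;> rw [h4] <;> linarith

end Pool.Agent.NH78.PY
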