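import Pool.Agent.NH78.PY.Stm
import Pool.Agent.NH9.PX.DER

/-!
# PY-DER: the derivative
-/

set_option autoImplicit false

namespace Pool.Agent.NH78.PY

open Finset Polynomial
open Pool.Agent.NH9.PX (PR)
open Pool.Agent.NH9.PX.DER (main)

theorem t_DER : S_DER := by
  intro A b δ hδ hA hab hPR
  have hδr : (0 : ℝ) < (δ : ℝ) := by exact_mod_cast hδ
  have hb : ∀ a ∈ A, b ≠ a := fun a ha => by
    rcases hab a ha with h | h <;> omega
  have hb2 : ∀ a ∈ A, b + δ ≠ a := fun a ha => by
    rcases hab a ha with h | h <;> omega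
  refine ⟨main A b δ hA hb hb2 (fun a ha => ?_) hδ.ne' hPR,
    main A (b + δ) (-δ) hA hb2 (fun a ha => ?_) (fun a ha => ?_) (neg_ne_zero.2 hδ.ne') ?_⟩
  · rcases hab a ha with h | h
    · have h1 : (0 : ℝ) < (b : ℝ) - a := by
        rw [sub_pos]
        exact_mod_cast h
      have h2 : 0 < (δ : ℝ) * ((b : ℝ) - a)⁻¹ := by positivity
      linarith
    · have h1 : (b : ℝ) + δ < a := by exact_mod_cast h
      have h2 : (b : ℝ) - a < 0 := by linarith
      rw [← div_eq_mul_inv, lt_div_iff_of_neg h2]
      linarith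
  · have h1 := hb a ha
    have h2 : b + δ + -δ = b := by ring
    rw [h2]
    exact h1
  · rcases hab a ha with h | h
    · have h1 : (a : ℝ) < b := by exact_mod_cast h
      have h2 : 0 < ((b + δ : ℤ) : ℝ) - a := by
        push_cast
        linarith
      rw [← div_eq_mul_inv, lt_div_iff₀ h2]
      push_cast
      linarith
    · have h1 : (b : ℝ) + δ < a := by exact_mod_cast h
      have h2 : ((b + δ : ℤ) : ℝ) - a < 0 := by
        push_cast
        linarith
      rw [← div_eq_mul_inv, lt_div_iff_of_neg h2]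
      push_cast
      linarith
  · rw [show b + δ + -δ = b by ring]
    exact hPR.symm

end Pool.Agent.NH78.PY
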