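import Pool.Agent.NH78.PY.Stm

/-!
# The exchange
-/

set_option autoImplicit false

namespace Pool.Agent.NH78.PY

open Finset Polynomial
open Pool.Agent.NH9.PX (PR)

namespace EXC

theorem step (Q : ℕ) (δ : ℤ) (D : ℕ) (A : Finset ℤ) (G G' : ℕ → Finset ℤ) (m : ℕ) :
    (∀ k < m, IsG Q δ D (G k) (G' k)) → (∀ k < m, G' k ⊆ A) → (∀ k < m, Disjoint (G k) A) →
    (∀ k < m, ∀ l < m, k ≠ l → Disjoint (G k) (G l) ∧ Disjoint (G' k) (G' l)) →
    ∃ A' : Finset ℤ, A'.card = A.card + m ∧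
      (∃ C : ℚ, 0 < C ∧ ∀ i < D + 2, (PR A' (bb Q δ i) : ℚ) = C * PR A (bb Q δ i)) ∧
      ∀ a, a ∈ A' ↔ (a ∈ A ∧ ∀ k < m, a ∉ G' k) ∨ ∃ k < m, a ∈ G k := by
  induction m with
  | zero =>
    intro _ _ _ _
    refine ⟨A, rfl, ⟨1, one_pos, fun i _ => (one_mul _).symm⟩, fun a => ?_⟩
    constructor
    · intro h
      exact Or.inl ⟨h, fun k hk => absurd hk (Nat.not_lt_zero k)⟩
    · rintro (h | ⟨k, hk, -⟩)
      · exact h.1
      · exact absurd hk (Nat.not_lt_zero k)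
  | succ m ih =>
    intro hG hsub hdis hdd
    obtain ⟨A', hcard, ⟨C, hC, hPR⟩, hmem⟩ := ih (fun k hk => hG k (by omega)) (fun k hk => hsub k (by omega))
      (fun k hk => hdis k (by omega)) (fun k hk l hl h => hdd k (by omega) l (by omega) h)
    have hm : m < m + 1 := Nat.lt_succ_self m
    have h1 : G' m ⊆ A' := by
      intro a ha
      rw [hmem]
      refine Or.inl ⟨hsub m hm ha, fun k hk hak => ?_⟩
      exact Finset.disjoint_left.1 (hdd m hm k (by omega) (by omega)).2 ha hak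
    have h2 : Disjoint (A' \ G' m) (G m) := by
      rw [Finset.disjoint_right]
      intro a ha h3
      have h4 := (mem_sdiff.1 h3).1
      rw [hmem] at h4
      rcases h4 with h4 | ⟨k, hk, h4⟩
      · exact Finset.disjoint_left.1 (hdis m hm) ha h4.1
      · exact Finset.disjoint_left.1 (hdd m hm k (by omega) (by omega)).1 ha h4
    have hg := hG m hm
    obtain ⟨C', hC', hPR'⟩ := hg.eq
    refine ⟨(A' \ G' m) ∪ G m, ?_, ⟨C' * C, mul_pos hC' hC, fun i hi => ?_⟩, fun a => ?_⟩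
    · rw [Finset.card_union_of_disjoint h2, Finset.card_sdiff_of_subset h1, hg.card, hcard]
      have h5 := Finset.card_le_card h1
      rw [hcard] at h5
      omega
    · have h6 : PR ((A' \ G' m) ∪ G m) (bb Q δ i) = PR (A' \ G' m) (bb Q δ i) * PR (G m) (bb Q δ i) :=
        Finset.prod_union h2
      have h7 : PR A' (bb Q δ i) = PR (A' \ G' m) (bb Q δ i) * PR (G' m) (bb Q δ i) :=
        (Finset.prod_sdiff h1).symm
      rw [h6]
      push_cast
      rw [hPR' i hi, mul_assoc, ← hPR i hi, h7]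
      push_cast
      ring
    · rw [mem_union, mem_sdiff, hmem]
      constructor
      · rintro (⟨h3 | ⟨k, hk, h3⟩, h4⟩ | h3)
        · refine Or.inl ⟨h3.1, fun k hk => ?_⟩
          rcases Nat.lt_succ_iff_lt_or_eq.1 hk with h5 | h5
          · exact h3.2 k h5
          · rw [h5]
            exact h4
        · exact Or.inr ⟨k, by omega, h3⟩
        · exact Or.inr ⟨m, hm, h3⟩
      · rintro (⟨h3, h4⟩ | ⟨k, hk, h3⟩)
        · exact Or.inl ⟨Or.inl ⟨h3, fun k hk => h4 k (by omega)⟩, h4 m hm⟩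
        · rcases Nat.lt_succ_iff_lt_or_eq.1 hk with h5 | h5
          · refine Or.inl ⟨Or.inr ⟨k, h5, h3⟩, fun h6 => ?_⟩
            exact Finset.disjoint_left.1 (hdis k hk) h3 (hsub m hm h6)
          · subst h5
            exact Or.inr h3

end EXC

open EXC in
theorem t_EXC : S_EXC := by
  rintro Q δ D m A G G' ⟨c, hc, hA⟩ hG hsub hdis hdd
  obtain ⟨A', hcard, ⟨C, hC, hPR⟩, hmem⟩ := step Q δ D A G G' m hG hsub hdis hdd
  have hval : ∀ i < D + 2, (PR A' (bb Q δ i) : ℚ) = C * c := by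
    intro i hi
    rw [hPR i hi, hA i hi]
  have h0 : 0 < D + 2 := by omega
  refine ⟨A', hcard, ⟨PR A' (bb Q δ 0), ?_, fun i hi => ?_⟩, fun a ha => ?_, fun a ha ha' => ?_⟩
  · have h1 : (0 : ℚ) < (PR A' (bb Q δ 0) : ℚ) := by
      rw [hval 0 h0]
      have h2 : (0 : ℚ) < (c : ℚ) := by exact_mod_cast hc
      exact mul_pos hC h2
    exact_mod_cast h1
  · have h1 : (PR A' (bb Q δ i) : ℚ) = (PR A' (bb Q δ 0) : ℚ) := by
      rw [hval i hi, hval 0 h0]
    exact_mod_cast h1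
  · rcases (hmem a).1 ha with h1 | h1
    · exact Or.inl h1.1
    · exact Or.inr h1
  · by_contra h1
    apply ha'
    rw [hmem]
    refine Or.inl ⟨ha, fun k hk h2 => ?_⟩
    exact h1 ⟨k, hk, h2⟩

end Pool.Agent.NH78.PY
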