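import Pool.Agent.NH78.PY.Stm

/-!
# The order and the residues of the numbers `ξ` (PY-GAP)
-/

set_option autoImplicit false

namespace Pool.Agent.NH78.PY

open Finset

namespace GAP

variable {Q : ℕ} {δ : ℤ} {s : ℕ → ℕ}

theorem sz (h : Sq Q s) (i : ℕ) (hi : 1 ≤ i) : ∃ m : ℕ, s i = 16 * Q * m + 8 * Q := by
  refine ⟨s i / (16 * Q), ?_⟩
  have h1 := Nat.div_add_mod (s i) (16 * Q)
  rw [h.h8 i hi] at h1
  exact h1.symm

theorem sz0 (h : Sq Q s) (i : ℕ) : s i % 2 = 0 := by
  rcases Nat.eq_zero_or_pos i with hi | hi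
  · rw [hi, h.h0]
    omega
  · obtain ⟨m, hm⟩ := sz h i hi
    have : s i = 2 * (8 * Q * m + 4 * Q) := by rw [hm]; ring
    omega

theorem xi_insert (e : Finset ℕ) (i : ℕ) (hi : i ∉ e) : xi Q s (insert i e) = xi Q s e + s i := by
  unfold xi
  rw [sum_insert hi]
  ring

theorem xi_odd (h : Sq Q s) (e : Finset ℕ) : xi Q s e % 2 = 1 := by
  induction e using Finset.induction_on with
  | empty =>
    unfold xi
    rw [sum_empty]
    omega
  | insert i e hi ih =>
    rw [xi_insert e i hi]
    have := sz0 h i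
    omega

theorem xi_ge (e : Finset ℕ) (i : ℕ) (hi : i ∈ e) : 1 - 16 * (Q : ℤ) + (s i : ℤ) ≤ xi Q s e := by
  unfold xi
  have := single_le_sum (f := fun j => (s j : ℤ)) (fun j _ => Int.natCast_nonneg (s j)) hi
  linarith

theorem xi_le (e : Finset ℕ) (D : ℕ) (he : e ⊆ range D) :
    xi Q s e ≤ 1 - 16 * (Q : ℤ) + ((∑ j ∈ range D, s j : ℕ) : ℤ) := by
  unfold xi
  rw [Nat.cast_sum]
  have := sum_le_sum_of_subset_of_nonneg (f := fun j => (s j : ℤ)) he
    (fun j _ _ => Int.natCast_nonneg (s j))
  linarith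

theorem big (hQ : 1 ≤ Q) (h : Sq Q s) (D : ℕ) (e f : Finset ℕ) (he : e ⊆ range D) (hf : D ∈ f)
    (hf0 : 0 ∉ f) : xi Q s e + 16 * Q + 1 ≤ xi Q s f := by
  have hD : 1 ≤ D := by
    rcases Nat.eq_zero_or_pos D with h1 | h1
    · rw [h1] at hf; exact absurd hf hf0
    · exact h1
  have h1 := h.hg D hD
  have h2 := xi_le (Q := Q) (s := s) e D he
  have h3 := xi_ge (Q := Q) (s := s) f D hf
  omega

theorem sub_of {e : Finset ℕ} {D : ℕ} (he : e ⊆ range (D + 1)) (h : D ∉ e) : e ⊆ range D := by
  intro i hi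
  have h1 := mem_range.1 (he hi)
  have h2 : i ≠ D := fun h' => h (h' ▸ hi)
  exact mem_range.2 (by omega)

theorem gap (hQ : 1 ≤ Q) (h : Sq Q s) (D : ℕ) : ∀ e f : Finset ℕ, e ⊆ range D → f ⊆ range D →
    0 ∉ e → 0 ∉ f → e ≠ f →
    xi Q s e + 16 * Q + 1 ≤ xi Q s f ∨ xi Q s f + 16 * Q + 1 ≤ xi Q s e := by
  induction D with
  | zero =>
    intro e f he hf _ _ hne
    rw [range_zero, subset_empty] at he hf
    exact absurd (he.trans hf.symm) hne
  | succ D ih =>
    intro e f he hf h0e h0f hne
    by_cases hDe : D ∈ e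
    · by_cases hDf : D ∈ f
      · have h1 : xi Q s e = xi Q s (e.erase D) + s D := by
          rw [← xi_insert _ D (notMem_erase D e), insert_erase hDe]
        have h2 : xi Q s f = xi Q s (f.erase D) + s D := by
          rw [← xi_insert _ D (notMem_erase D f), insert_erase hDf]
        have h3 : e.erase D ≠ f.erase D := by
          intro h4
          apply hne
          rw [← insert_erase hDe, h4, insert_erase hDf]
        have h5 := ih (e.erase D) (f.erase D)
          (sub_of ((erase_subset D e).trans he) (notMem_erase D e))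
          (sub_of ((erase_subset D f).trans hf) (notMem_erase D f))
          (fun h' => h0e (mem_of_mem_erase h')) (fun h' => h0f (mem_of_mem_erase h')) h3
        omega
      · exact Or.inr (big hQ h D f e (sub_of hf hDf) hDe h0e)
    · by_cases hDf : D ∈ f
      · exact Or.inl (big hQ h D e f (sub_of he hDe) hDf h0f)
      · exact ih e f (sub_of he hDe) (sub_of hf hDf) h0e h0f hne

theorem gap' (hQ : 1 ≤ Q) (h : Sq Q s) (e f : Finset ℕ) (h0e : 0 ∉ e) (h0f : 0 ∉ f) (hne : e ≠ f) :
    xi Q s e + 16 * Q + 1 ≤ xi Q s f ∨ xi Q s f + 16 * Q + 1 ≤ xi Q s e := by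
  obtain ⟨D, hD⟩ := (e ∪ f).exists_nat_subset_range
  exact gap hQ h D e f (subset_union_left.trans hD) (subset_union_right.trans hD) h0e h0f hne

theorem ins (h : Sq Q s) (e : Finset ℕ) (he : 0 ∉ e) :
    xi Q s (insert 0 e) = xi Q s e + 16 * Q ∧ eta Q δ s (insert 0 e) = eta Q δ s e := by
  constructor
  · rw [xi_insert e 0 he, h.h0]
    push_cast
    rfl
  · unfold eta
    rw [sum_insert he]
    have : xx Q δ 0 = 0 := by unfold xx; simp
    rw [this]
    ring

theorem res (h : Sq Q s) (e : Finset ℕ) (he : 0 ∉ e) :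
    (16 * (Q : ℤ)) ∣ xi Q s e - (if e.card % 2 = 0 then 1 else 1 + 8 * (Q : ℤ)) := by
  induction e using Finset.induction_on with
  | empty =>
    refine ⟨-1, ?_⟩
    unfold xi
    simp
  | insert i e hi ih =>
    have h0 : 0 ∉ e := fun h' => he (mem_insert_of_mem h')
    have hi1 : 1 ≤ i := by
      rcases Nat.eq_zero_or_pos i with h1 | h1
      · exact absurd (h1 ▸ mem_insert_self i e) he
      · exact h1
    obtain ⟨c, hc⟩ := ih h0
    obtain ⟨m, hm⟩ := sz h i hi1
    have hm' : (s i : ℤ) = 16 * Q * m + 8 * Q := by exact_mod_cast hm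
    rw [xi_insert e i hi, card_insert_of_notMem hi, hm']
    by_cases hpar : e.card % 2 = 0
    · rw [if_pos hpar] at hc
      rw [if_neg (by omega)]
      exact ⟨c + m, by linear_combination hc⟩
    · rw [if_neg hpar] at hc
      rw [if_pos (by omega)]
      exact ⟨c + m + 1, by linear_combination hc⟩

end GAP

open GAP in
theorem t_GAP : S_GAP := by
  intro Q δ s hQ h
  refine ⟨xi_odd h, gap' hQ h, fun e h0 hne => ?_, ins h, res h, fun e f hef => ?_⟩
  · obtain ⟨i, hi⟩ := nonempty_iff_ne_empty.2 hne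
    have hi1 : 1 ≤ i := by
      rcases Nat.eq_zero_or_pos i with h1 | h1
      · exact absurd (h1 ▸ hi) h0
      · exact h1
    have h1 := h.hg i hi1
    have h2 := xi_ge (Q := Q) (s := s) e i hi
    omega
  · by_cases h0e : 0 ∈ e
    · have h1 := (ins (δ := δ) h (e.erase 0) (notMem_erase 0 e)).1
      rw [insert_erase h0e] at h1
      by_cases h0f : 0 ∈ f
      · have h2 := (ins (δ := δ) h (f.erase 0) (notMem_erase 0 f)).1
        rw [insert_erase h0f] at h2
        by_contra hne
        have h3 : e.erase 0 ≠ f.erase 0 := by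
          intro h4
          apply hne
          rw [← insert_erase h0e, h4, insert_erase h0f]
        have h5 := gap' hQ h _ _ (notMem_erase 0 e) (notMem_erase 0 f) h3
        omega
      · exfalso
        by_cases h3 : e.erase 0 = f
        · rw [h3] at h1
          omega
        · have h5 := gap' hQ h _ _ (notMem_erase 0 e) h0f h3
          omega
    · by_cases h0f : 0 ∈ f
      · exfalso
        have h2 := (ins (δ := δ) h (f.erase 0) (notMem_erase 0 f)).1
        rw [insert_erase h0f] at h2
        by_cases h3 : e = f.erase 0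
        · rw [← h3] at h2
          omega
        · have h5 := gap' hQ h _ _ h0e (notMem_erase 0 f) h3
          omega
      · by_contra hne
        have h5 := gap' hQ h _ _ h0e h0f hne
        omega

end Pool.Agent.NH78.PY
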