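import Pool.Agent.NH78.PY.Stm

/-!
# Project PY, part PY-GCL: the classes of the points of the gadgets
-/

set_option autoImplicit false

namespace Pool.Agent.NH78.PY

open Finset Polynomial
open Pool.Agent.NH9.PX (PR Ev Od S_CRT)

namespace GCLH

/-- the odd part of the sum -/
def sg (e : Finset ℕ) : ℤ := ∑ i ∈ e, ((i % 2 : ℕ) : ℤ) * 2 ^ i

/-- the quotient -/
def qq (L k : ℕ) (e : Finset ℕ) : ℤ := (∑ i ∈ e, (((i / 2 : ℕ) : ℤ) - 1) * 2 ^ i) - L * k

theorem sg_nonneg (e : Finset ℕ) : 0 ≤ sg e := Finset.sum_nonneg (fun i _ => by positivity)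

theorem sg_le (e : Finset ℕ) : sg e ≤ NN e := by
  unfold sg NN
  apply Finset.sum_le_sum
  intro i _
  have h1 : ((i % 2 : ℕ) : ℤ) ≤ 1 := by
    have := Nat.mod_lt i (by norm_num : 0 < 2)
    omega
  have h2 : (0 : ℤ) < 2 ^ i := by positivity
  nlinarith

theorem NN_eq (e : Finset ℕ) : NN e = ((∑ i ∈ e, 2 ^ i : ℕ) : ℤ) := by
  unfold NN
  push_cast
  rfl

theorem NN_lt (E : ℕ) (e : Finset ℕ) (he : e ⊆ range E) : NN e < 2 ^ E := by
  rw [NN_eq]
  have h := Nat.geomSum_lt (m := 2) (n := E) (s := e) le_rfl (fun k hk => Finset.mem_range.mp (he hk))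
  exact_mod_cast h

theorem NN_pos (e : Finset ℕ) (he : e ≠ ∅) : 1 ≤ NN e := by
  have h : 0 < NN e := by
    unfold NN
    exact Finset.sum_pos (fun i _ => by positivity) (Finset.nonempty_iff_ne_empty.mpr he)
  omega

theorem NN_inj (e f : Finset ℕ) (h : NN e = NN f) : e = f := by
  rw [NN_eq, NN_eq] at h
  exact Finset.geomSum_injective (n := 2) le_rfl (by exact_mod_cast h)

theorem gu_eq (E L y Q₁ k : ℕ) (u : Finset ℕ → ℤ) (hu : GU E L y Q₁ k u) (e : Finset ℕ)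
    (he : e ⊆ range E) (hne : e ≠ ∅) :
    u e * NN e = -((L : ℤ) * y) + 2 * L * sg e + 16 * L * Q₁ * qq L k e := by
  rw [hu e he hne]
  have h : ∑ i ∈ e, bb (L * Q₁) (2 * L) i * 2 ^ i =
      16 * L * Q₁ * (∑ i ∈ e, (((i / 2 : ℕ) : ℤ) - 1) * 2 ^ i) + 2 * L * sg e := by
    unfold sg bb xx
    rw [Finset.mul_sum, Finset.mul_sum, ← Finset.sum_add_distrib]
    apply Finset.sum_congr rfl
    intro i _
    push_cast
    ring
  rw [h]
  unfold qq
  push_cast
  ring

theorem core1 (F y Q A B s r : ℤ) (hF : 4 ≤ F) (hy : 8 * (F * F) ≤ y) (hQ : 8 * (F * y) ≤ Q)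
    (hA : 1 ≤ A) (hA' : A < F) (hB : 1 ≤ B) (hB' : B < F) (hs : 0 ≤ s) (hs' : s < F)
    (hr : 0 ≤ r) (hr' : r < F) (hAB : A ≠ B) :
    ¬ (8 * Q ∣ y * (A - B) + 2 * (s * B - r * A)) := by
  intro hd
  have h1 : 0 ≤ s * B := by positivity
  have h2 : s * B ≤ F * F := mul_le_mul hs'.le hB'.le (by omega) (by omega)
  have h3 : 0 ≤ r * A := by positivity
  have h4 : r * A ≤ F * F := mul_le_mul hr'.le hA'.le (by omega) (by omega)
  have h5 : 0 < y := by nlinarith
  have h6 : 16 ≤ F * F := by nlinarith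
  have h7 : y ≤ F * y := by nlinarith
  have hlt : |y * (A - B) + 2 * (s * B - r * A)| < 8 * Q := by
    have h8 : y * (A - B) ≤ F * y := by nlinarith
    have h9 : -(F * y) ≤ y * (A - B) := by nlinarith
    rw [abs_lt]
    constructor <;> linarith
  have h0 := Int.eq_zero_of_abs_lt_dvd hd hlt
  rcases lt_or_gt_of_ne hAB with h | h
  · have h10 : y * (A - B) ≤ -y := by nlinarith
    linarith
  · have h10 : y ≤ y * (A - B) := by nlinarith
    linarith

theorem core2 (F y Q A B s r : ℤ) (hF : 4 ≤ F) (hy : 8 * (F * F) ≤ y) (hQ : 8 * (F * y) ≤ Q)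
    (hA : 1 ≤ A) (hA' : A < F) (hB : 1 ≤ B) (hB' : B < F) (hs : 0 ≤ s) (hs' : s < F)
    (hr : 0 ≤ r) (hr' : r < F) :
    ¬ (8 * Q ∣ -(y * (A + B)) + 2 * (s * B + r * A) - 2 * (A * B)) := by
  intro hd
  have h1 : 0 ≤ s * B := by positivity
  have h2 : s * B ≤ F * F := mul_le_mul hs'.le hB'.le (by omega) (by omega)
  have h3 : 0 ≤ r * A := by positivity
  have h4 : r * A ≤ F * F := mul_le_mul hr'.le hA'.le (by omega) (by omega)
  have h3' : 0 ≤ A * B := by positivity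
  have h4' : A * B ≤ F * F := mul_le_mul hA'.le hB'.le (by omega) (by omega)
  have h5 : 0 < y := by nlinarith
  have h6 : 16 ≤ F * F := by nlinarith
  have h7 : y ≤ F * y := by nlinarith
  have h8 : y * (A + B) ≤ 2 * (F * y) := by nlinarith
  have h9 : 2 * y ≤ y * (A + B) := by nlinarith
  have hlt : |-(y * (A + B)) + 2 * (s * B + r * A) - 2 * (A * B)| < 8 * Q := by
    rw [abs_lt]
    constructor <;> linarith
  have h0 := Int.eq_zero_of_abs_lt_dvd hd hlt
  linarith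

theorem core3 (F y Q A L s r : ℤ) (hF : 4 ≤ F) (hy : 8 * (F * F) ≤ y) (hQ : 8 * (F * y) ≤ Q)
    (hL : 0 < L) (hA : 1 ≤ A) (hA' : A < F) (hs : 0 ≤ s) (hs' : s < F)
    (hr : 0 ≤ r) (hr' : r ≤ 2 * L) :
    ¬ (8 * (L * Q) ∣ A * r + L * (y - 2 * s)) := by
  intro hd
  have h5 : 0 < y := by nlinarith
  have h6 : 4 * F ≤ F * F := by nlinarith
  have h7 : y ≤ F * y := by nlinarith
  have h1 : 0 ≤ A * r := by positivity
  have h2 : A * r ≤ F * (2 * L) := mul_le_mul hA'.le hr' hr (by omega)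
  have h3 : 0 < L * (y - 2 * s) := mul_pos hL (by linarith)
  have h4 : L * (y - 2 * s) ≤ L * y := mul_le_mul_of_nonneg_left (by linarith) hL.le
  have h8 : L * (2 * F + y) < L * (8 * Q) := mul_lt_mul_of_pos_left (by linarith) hL
  have h9 := Int.le_of_dvd (by linarith) hd
  nlinarith

theorem two_pow_dvd (L m a : ℤ) (v : ℕ) (t : ℤ) (hm : m % 2 = 1) (h : 2 ^ v * t * a = L * m) :
    (2 : ℤ) ^ v ∣ L := by
  have h1 : (2 : ℤ) ^ v ∣ L * m := ⟨t * a, by rw [← h]; ring⟩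
  have h2 : IsCoprime ((2 : ℤ) ^ v) m := by
    apply IsCoprime.pow_left
    rw [Int.isCoprime_iff_gcd_eq_one]
    have h3 : Int.gcd 2 m ∣ 2 := by
      have := Int.gcd_dvd_left 2 m
      exact_mod_cast this
    have h4 : ((Int.gcd 2 m : ℕ) : ℤ) ∣ m := Int.gcd_dvd_right 2 m
    rcases (Nat.dvd_prime Nat.prime_two).mp h3 with h5 | h5
    · exact h5
    · rw [h5] at h4
      omega
  exact h2.dvd_of_dvd_mul_right h1

end GCLH

open GCLH in
theorem t_GCL : S_GCL := by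
  intro E L y Q₁ k l u u' hp hu hu' e he hne
  have hF : (4 : ℤ) ≤ 2 ^ E := by
    have h : (2 : ℤ) ^ 2 ≤ 2 ^ E := pow_le_pow_right₀ (by norm_num) hp.E2
    linarith
  have hy : 8 * ((2 : ℤ) ^ E * 2 ^ E) ≤ y := by
    have h := hp.y2
    have h1 : (2 : ℤ) ^ (2 * E + 3) ≤ y := by exact_mod_cast h
    have h2 : (2 : ℤ) ^ (2 * E + 3) = 8 * (2 ^ E * 2 ^ E) := by
      rw [pow_add, two_mul, pow_add]; ring
    linarith
  have hQ : 8 * ((2 : ℤ) ^ E * y) ≤ Q₁ := by
    have h := hp.Q1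
    have h1 : (y : ℤ) * 2 ^ (E + 3) ≤ Q₁ := by exact_mod_cast h
    have h2 : (2 : ℤ) ^ (E + 3) = 8 * 2 ^ E := by
      rw [pow_add]; ring
    rw [h2] at h1
    linarith
  have hL : (0 : ℤ) < L := by exact_mod_cast hp.L0
  have hL0 : (L : ℤ) ≠ 0 := hL.ne'
  have heq := gu_eq E L y Q₁ k u hu e he hne
  have hA := NN_pos e hne
  have hA' := NN_lt E e he
  have hs := sg_nonneg e
  have hs' : sg e < 2 ^ E := (sg_le e).trans_lt hA'
  refine ⟨fun f hf hnf => ?_, ?_, ?_⟩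
  · have heq' := gu_eq E L y Q₁ l u' hu' f hf hnf
    have hB := NN_pos f hnf
    have hB' := NN_lt E f hf
    have hr := sg_nonneg f
    have hr' : sg f < 2 ^ E := (sg_le f).trans_lt hB'
    constructor
    · intro hef hd
      apply core1 (2 ^ E) y Q₁ (NN e) (NN f) (sg e) (sg f) hF hy hQ hA hA' hB hB' hs hs' hr hr'
        (fun h => hef (NN_inj e f h))
      have hd2 : (8 * ((L * Q₁ : ℕ) : ℤ)) ∣ (u e - u' f) * (NN e * NN f) := hd.mul_right _
      have e1 : (u e - u' f) * (NN e * NN f) =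
          L * ((y : ℤ) * (NN e - NN f) + 2 * (sg e * NN f - sg f * NN e)) +
            (8 * ((L * Q₁ : ℕ) : ℤ)) * (2 * (qq L k e * NN f - qq L l f * NN e)) := by
        have : (u e - u' f) * (NN e * NN f) = (u e * NN e) * NN f - (u' f * NN f) * NN e := by ring
        rw [this, heq, heq']
        push_cast
        ring
      rw [e1] at hd2
      have hd3 := (Int.dvd_add_left (dvd_mul_right _ _)).mp hd2
      have e2 : (8 * ((L * Q₁ : ℕ) : ℤ)) = L * (8 * Q₁) := by push_cast; ring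
      rw [e2] at hd3
      exact (mul_dvd_mul_iff_left hL0).mp hd3
    · intro hd
      apply core2 (2 ^ E) y Q₁ (NN e) (NN f) (sg e) (sg f) hF hy hQ hA hA' hB hB' hs hs' hr hr'
      have hd2 : (8 * ((L * Q₁ : ℕ) : ℤ)) ∣ (u e + u' f - 2 * L) * (NN e * NN f) := hd.mul_right _
      have e1 : (u e + u' f - 2 * L) * (NN e * NN f) =
          L * (-((y : ℤ) * (NN e + NN f)) + 2 * (sg e * NN f + sg f * NN e) - 2 * (NN e * NN f)) +
            (8 * ((L * Q₁ : ℕ) : ℤ)) * (2 * (qq L k e * NN f + qq L l f * NN e)) := by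
        have : (u e + u' f - 2 * L) * (NN e * NN f) =
            (u e * NN e) * NN f + (u' f * NN f) * NN e - 2 * L * (NN e * NN f) := by ring
        rw [this, heq, heq']
        push_cast
        ring
      rw [e1] at hd2
      have hd3 := (Int.dvd_add_left (dvd_mul_right _ _)).mp hd2
      have e2 : (8 * ((L * Q₁ : ℕ) : ℤ)) = L * (8 * Q₁) := by push_cast; ring
      rw [e2] at hd3
      exact (mul_dvd_mul_iff_left hL0).mp hd3
  · by_contra hcon
    push Not at hcon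
    have hQpos : (0 : ℤ) < Q₁ := by nlinarith
    have hmod0 : (8 * ((L * Q₁ : ℕ) : ℤ)) ≠ 0 := by
      push_cast
      positivity
    have hr0 := Int.emod_nonneg (u e) hmod0
    apply core3 (2 ^ E) y Q₁ (NN e) L (sg e) (u e % (8 * ((L * Q₁ : ℕ) : ℤ))) hF hy hQ hL hA hA'
      hs hs' hr0 hcon
    have hdm := Int.emod_add_mul_ediv (u e) (8 * ((L * Q₁ : ℕ) : ℤ))
    refine ⟨2 * qq L k e - NN e * (u e / (8 * ((L * Q₁ : ℕ) : ℤ))), ?_⟩
    have h1 : NN e * (u e % (8 * ((L * Q₁ : ℕ) : ℤ))) =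
        u e * NN e - NN e * ((8 * ((L * Q₁ : ℕ) : ℤ)) * (u e / (8 * ((L * Q₁ : ℕ) : ℤ)))) := by
      have : u e % (8 * ((L * Q₁ : ℕ) : ℤ)) =
          u e - (8 * ((L * Q₁ : ℕ) : ℤ)) * (u e / (8 * ((L * Q₁ : ℕ) : ℤ))) := by linarith
      rw [this]
      ring
    rw [h1, heq]
    push_cast
    ring
  · have hyo : (y : ℤ) % 2 = 1 := by
      have := hp.y1
      omega
    set m : ℤ := -(y : ℤ) + 2 * sg e + 16 * Q₁ * qq L k e with hm
    have hmo : m % 2 = 1 := by
      have e3 : m = -(y : ℤ) + 2 * (sg e + 8 * Q₁ * qq L k e) := by rw [hm]; ring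
      rw [e3]
      omega
    have hum : u e * NN e = L * m := by
      rw [heq, hm]
      ring
    have hu0 : u e ≠ 0 := by
      intro h
      rw [h, zero_mul] at hum
      rcases mul_eq_zero.mp hum.symm with h | h
      · exact hL0 h
      · omega
    obtain ⟨v, t, ht, hvt⟩ := Nat.exists_eq_two_pow_mul_odd (n := (u e).natAbs)
      (Int.natAbs_ne_zero.mpr hu0)
    obtain ⟨c, hc⟩ := ht
    have hdiv : ∃ t' : ℤ, t' % 2 = 1 ∧ u e = 2 ^ v * t' := by
      rcases Int.natAbs_eq (u e) with h | h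
      · refine ⟨t, by omega, ?_⟩
        rw [h, hvt]
        push_cast
        ring
      · refine ⟨-t, by omega, ?_⟩
        rw [h, hvt]
        push_cast
        ring
    obtain ⟨t', ht', hut⟩ := hdiv
    refine ⟨v, t', ht', hut, ?_⟩
    have h := two_pow_dvd L m (NN e) v t' hmo (by rw [← hut]; exact hum)
    exact_mod_cast h

end Pool.Agent.NH78.PY
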