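import Pool.Agent.NH78.PY.Stm

/-!
# PY-GDT: the gadgets and the finite set of classes
-/

set_option autoImplicit false

namespace Pool.Agent.NH78.PY

open Finset Polynomial
open Pool.Agent.NH9.PX (PR Ev Od)

namespace GDT

theorem mem_Ev {E : ℕ} {e : Finset ℕ} : e ∈ Ev E ↔ e ⊆ range E ∧ e.card % 2 = 0 := by
  unfold Ev
  rw [mem_filter, mem_powerset]

theorem mem_Od {E : ℕ} {e : Finset ℕ} : e ∈ Od E ↔ e ⊆ range E ∧ e.card % 2 = 1 := by
  unfold Od
  rw [mem_filter, mem_powerset]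

/-- toggling `0` -/
def tg (e : Finset ℕ) : Finset ℕ := if 0 ∈ e then e.erase 0 else insert 0 e

theorem tg_tg (e : Finset ℕ) : tg (tg e) = e := by
  unfold tg
  by_cases h : 0 ∈ e
  · rw [if_pos h, if_neg (by simp)]
    exact insert_erase h
  · rw [if_neg h, if_pos (by simp)]
    exact erase_insert h

theorem tg_sub {E : ℕ} (hE : 1 ≤ E) {e : Finset ℕ} (he : e ⊆ range E) : tg e ⊆ range E := by
  unfold tg
  by_cases h : 0 ∈ e
  · rw [if_pos h]
    exact (erase_subset 0 e).trans he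
  · rw [if_neg h]
    exact insert_subset (mem_range.2 (by omega)) he

theorem tg_card (e : Finset ℕ) : (tg e).card % 2 = (e.card + 1) % 2 := by
  unfold tg
  by_cases h : 0 ∈ e
  · rw [if_pos h, card_erase_of_mem h]
    have := card_pos.2 ⟨0, h⟩
    omega
  · rw [if_neg h, card_insert_of_notMem h]

theorem card_Od (E : ℕ) (hE : 1 ≤ E) : (Od E).card = (Ev E).card := by
  refine card_bij' (fun e _ => tg e) (fun e _ => tg e) ?_ ?_ ?_ ?_
  · intro e he
    rw [mem_Od] at he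
    rw [mem_Ev]
    refine ⟨tg_sub hE he.1, ?_⟩
    have := tg_card e
    omega
  · intro e he
    rw [mem_Ev] at he
    rw [mem_Od]
    refine ⟨tg_sub hE he.1, ?_⟩
    have := tg_card e
    omega
  · intro e _
    exact tg_tg e
  · intro e _
    exact tg_tg e

theorem mod_le (a Q : ℤ) (hQ : 0 < Q) : a % (8 * Q) ≤ a % (16 * Q) := by
  have h1 : a % (16 * Q) % (8 * Q) = a % (8 * Q) :=
    Int.emod_emod_of_dvd a ⟨2, by ring⟩
  have h2 : 0 ≤ a % (16 * Q) := Int.emod_nonneg _ (by omega)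
  have h3 : 0 ≤ a % (16 * Q) / (8 * Q) := Int.ediv_nonneg h2 (by omega)
  have h4 := Int.emod_add_mul_ediv (a % (16 * Q)) (8 * Q)
  have h5 : 0 ≤ 8 * Q * (a % (16 * Q) / (8 * Q)) := mul_nonneg (by omega) h3
  rw [h1] at h4
  linarith

theorem bb_ge (Q : ℕ) (δ : ℤ) (hδ : 0 ≤ δ) (i : ℕ) : -(16 * (Q : ℤ)) ≤ bb Q δ i := by
  unfold bb xx
  have h1 : (0 : ℤ) ≤ 16 * Q * ((i / 2 : ℕ) : ℤ) := by positivity
  have h2 : (0 : ℤ) ≤ δ * ((i % 2 : ℕ) : ℤ) := mul_nonneg hδ (Int.natCast_nonneg _)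
  linarith

/-- the product over the points is the value of the polynomial -/
theorem PR_image {S : Finset (Finset ℕ)} {u : Finset ℕ → ℤ}
    (h : ∀ e ∈ S, ∀ f ∈ S, u e = u f → e = f) (x : ℤ) :
    PR (S.image u) x = ∏ e ∈ S, (x - u e) := by
  unfold PR
  exact prod_image (fun e he f hf hef => h e he f hf hef)

end GDT

open GDT in
theorem t_GDT (hP : S_PAR) (hE : S_GUE) (hC : S_GCL) (hI : S_GID) (hT : S_TOM) : S_GDT := by
  intro D hD
  obtain ⟨E, hED⟩ : ∃ E, E = D + 2 := ⟨_, rfl⟩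
  obtain ⟨L, y, Q₁, hPar⟩ := hP E (by omega)
  obtain ⟨u, hu1, hu2, hu3, hu4⟩ := hE E L y Q₁ hPar
  have hcl := fun k l => hC E L y Q₁ k l (u k) (u l) hPar (hu1 k) (hu1 l)
  obtain ⟨Q, hQ⟩ : ∃ Q, Q = L * Q₁ := ⟨_, rfl⟩
  obtain ⟨S, hS⟩ : ∃ S, S = (Ev E).erase ∅ := ⟨_, rfl⟩
  have hmS : ∀ e, e ∈ S ↔ e ≠ ∅ ∧ e ⊆ range E ∧ e.card % 2 = 0 := by
    intro e
    rw [hS, mem_erase, mem_Ev]
  have hmO : ∀ e, e ∈ Od E → e ≠ ∅ ∧ e ⊆ range E ∧ e.card % 2 = 1 := by
    intro e he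
    rw [mem_Od] at he
    refine ⟨?_, he⟩
    rintro rfl
    simp at he
  have hQ1 : 1 ≤ Q₁ := by
    have h1 := hPar.Q1
    have h2 := hPar.y2
    have h3 : 1 ≤ y := le_trans Nat.one_le_two_pow h2
    exact le_trans (Nat.mul_le_mul h3 Nat.one_le_two_pow) h1
  have hL0 : 0 < L := hPar.L0
  have hQ0 : 1 ≤ Q := by
    rw [hQ]
    exact Nat.mul_pos hL0 hQ1
  have hLQ : L ≤ Q := by
    rw [hQ]
    exact Nat.le_mul_of_pos_right L hQ1
  rw [← hQ] at hu2
  simp only [← hQ] at hcl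
  have hcard : (Od E).card = S.card + 1 := by
    have h1 : (∅ : Finset ℕ) ∈ Ev E := by
      rw [mem_Ev]
      simp
    rw [card_Od E (by omega), hS, card_erase_of_mem h1]
    have := card_pos.2 ⟨_, h1⟩
    omega
  have hneS : S.Nonempty := by
    refine ⟨{0, 1}, ?_⟩
    rw [hmS]
    refine ⟨by simp, ?_, by decide⟩
    intro i hi
    simp only [mem_insert, mem_singleton] at hi
    rw [mem_range]
    omega
  -- different sets give different classes
  have hinj : ∀ k l, ∀ e ⊆ range E, e ≠ ∅ → ∀ f ⊆ range E, f ≠ ∅ → u k e = u l f → e = f := by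
    intro k l e he he0 f hf hf0 h
    by_contra hne
    apply ((hcl k l e he he0).1 f hf hf0).1 hne
    rw [h]
    simp
  have hinj2 : ∀ k l, k ≠ l → ∀ e ⊆ range E, e ≠ ∅ → u k e ≠ u l e := by
    intro k l hkl e he he0
    rcases Nat.lt_or_gt_of_ne hkl with h | h
    · exact ne_of_gt (hu3 k l h e he he0)
    · exact ne_of_lt (hu3 l k h e he he0)
  refine ⟨Q, 2 * (L : ℤ), S.image (u 0), hQ0, by positivity, ?_, hneS.image _, ?_, ?_, ?_⟩
  · have : (L : ℤ) ≤ Q := by exact_mod_cast hLQ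
    have : (1 : ℤ) ≤ Q := by exact_mod_cast hQ0
    omega
  · intro t ht
    obtain ⟨e, he, rfl⟩ := mem_image.1 ht
    rw [hmS] at he
    obtain ⟨h1, h2, v, t', ht', hut, hv⟩ := hcl 0 0 e he.2.1 he.1
    refine ⟨h2, ?_, ?_⟩
    · have h3 := (h1 e he.2.1 he.1).2
      intro h4
      apply h3
      rw [← two_mul]
      exact h4
    · obtain ⟨c, hc⟩ := hv
      refine ⟨v, c * Q₁, 2 * (c : ℤ), t', ht', by omega, ?_, ?_, hut⟩
      · rw [hQ, hc]
        ring
      · rw [hc]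
        push_cast
        ring
  · intro t ht t' ht' hne
    obtain ⟨e, he, rfl⟩ := mem_image.1 ht
    obtain ⟨f, hf, rfl⟩ := mem_image.1 ht'
    rw [hmS] at he hf
    have h1 := (hcl 0 0 e he.2.1 he.1).1 f hf.2.1 hf.1
    refine ⟨h1.1 ?_, h1.2⟩
    rintro rfl
    exact hne rfl
  · intro m W₀
    obtain ⟨k₀, hk₀⟩ := hu4 (max W₀ (16 * Q + 1))
    obtain ⟨W, hW⟩ : ∃ W : ℤ, W = |W₀| + ∑ k ∈ range m, ∑ e ∈ (range E).powerset, |u (k₀ + k) e| :=
      ⟨_, rfl⟩
    have hWW : W₀ ≤ W := by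
      have h1 : 0 ≤ ∑ k ∈ range m, ∑ e ∈ (range E).powerset, |u (k₀ + k) e| :=
        sum_nonneg fun k _ => sum_nonneg fun e _ => abs_nonneg _
      have h2 := le_abs_self W₀
      linarith
    have hbd : ∀ k < m, ∀ e ⊆ range E, e ≠ ∅ → -W ≤ u (k₀ + k) e ∧ u (k₀ + k) e < -W₀ := by
      intro k hk e he he0
      have h1 : |u (k₀ + k) e| ≤ ∑ e ∈ (range E).powerset, |u (k₀ + k) e| :=
        single_le_sum (f := fun e => |u (k₀ + k) e|) (fun e _ => abs_nonneg _)
          (mem_powerset.2 he)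
      have h2 : ∑ e ∈ (range E).powerset, |u (k₀ + k) e| ≤
          ∑ k ∈ range m, ∑ e ∈ (range E).powerset, |u (k₀ + k) e| :=
        single_le_sum (f := fun k => ∑ e ∈ (range E).powerset, |u (k₀ + k) e|)
          (fun k _ => sum_nonneg fun e _ => abs_nonneg _) (mem_range.2 hk)
      have h3 := abs_nonneg W₀
      have h4 := neg_abs_le (u (k₀ + k) e)
      have h5 := hk₀ (k₀ + k) (by omega) e he he0
      have h6 := le_max_left W₀ (16 * (Q : ℤ) + 1)
      constructor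
      · linarith
      · linarith
    refine ⟨W, fun k => (Od E).image (u (k₀ + k)), fun k => S.image (u (k₀ + k)), hWW, ?_, ?_⟩
    · intro k hk
      have hiO : ∀ e ∈ Od E, ∀ f ∈ Od E, u (k₀ + k) e = u (k₀ + k) f → e = f := by
        intro e he f hf h
        have he := hmO e he
        have hf := hmO f hf
        exact hinj (k₀ + k) (k₀ + k) e he.2.1 he.1 f hf.2.1 hf.1 h
      have hiS : ∀ e ∈ S, ∀ f ∈ S, u (k₀ + k) e = u (k₀ + k) f → e = f := by
        intro e he f hf h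
        rw [hmS] at he hf
        exact hinj (k₀ + k) (k₀ + k) e he.2.1 he.1 f hf.2.1 hf.1 h
      refine ⟨⟨?_, ?_, ?_⟩, ?_, ?_, ?_, ?_⟩
      · rw [card_image_of_injOn (fun e he f hf h => hiO e he f hf h),
          card_image_of_injOn (fun e he f hf h => hiS e he f hf h), hcard]
      · obtain ⟨C, hC0, hC1⟩ := hI hT E L y Q₁ (k₀ + k) (u (k₀ + k)) hPar (hu1 _)
        refine ⟨C, hC0, ?_⟩
        intro i hi
        rw [PR_image hiO, PR_image hiS, hS, hQ]
        exact hC1 i (by omega)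
      · intro i _
        rw [PR_image hiS]
        rw [prod_ne_zero_iff]
        intro e he
        rw [hmS] at he
        have h1 := bb_ge Q (2 * (L : ℤ)) (by positivity) i
        have h2 := hk₀ (k₀ + k) (by omega) e he.2.1 he.1
        have h3 := le_max_right W₀ (16 * (Q : ℤ) + 1)
        have h4 : u (k₀ + k) e < bb Q (2 * (L : ℤ)) i := by linarith
        exact sub_ne_zero.2 (ne_of_gt h4)
      · intro a ha
        obtain ⟨e, he, rfl⟩ := mem_image.1 ha
        have he := hmO e he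
        exact hbd k hk e he.2.1 he.1
      · intro a ha
        obtain ⟨e, he, rfl⟩ := mem_image.1 ha
        rw [hmS] at he
        exact hbd k hk e he.2.1 he.1
      · intro a ha
        obtain ⟨e, he, rfl⟩ := mem_image.1 ha
        refine ⟨u 0 e, mem_image_of_mem _ he, ?_⟩
        rw [hmS] at he
        exact hu2 (k₀ + k) e he.2.1 he.1
      · intro a ha
        obtain ⟨e, he, rfl⟩ := mem_image.1 ha
        have he := hmO e he
        obtain ⟨h1, h2, -⟩ := hcl (k₀ + k) 0 e he.2.1 he.1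
        refine ⟨lt_of_lt_of_le h2 (mod_le _ _ (by exact_mod_cast hQ0)), ?_⟩
        intro t ht
        obtain ⟨f, hf, rfl⟩ := mem_image.1 ht
        rw [hmS] at hf
        have h3 := h1 f hf.2.1 hf.1
        have hef : e ≠ f := by
          rintro rfl
          omega
        have h8 : (8 * (Q : ℤ)) ∣ 16 * (Q : ℤ) := ⟨2, by ring⟩
        exact ⟨fun h => h3.1 hef (h8.trans h), fun h => h3.2 (h8.trans h)⟩
    · intro k hk l hl hkl
      constructor
      · rw [disjoint_left]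
        intro a ha hb
        obtain ⟨e, he, rfl⟩ := mem_image.1 ha
        obtain ⟨f, hf, hfe⟩ := mem_image.1 hb
        have he := hmO e he
        have hf := hmO f hf
        have hef := hinj (k₀ + l) (k₀ + k) f hf.2.1 hf.1 e he.2.1 he.1 hfe
        subst hef
        exact hinj2 (k₀ + l) (k₀ + k) (by omega) f hf.2.1 hf.1 hfe
      · rw [disjoint_left]
        intro a ha hb
        obtain ⟨e, he, rfl⟩ := mem_image.1 ha
        obtain ⟨f, hf, hfe⟩ := mem_image.1 hb
        rw [hmS] at he hf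
        have hef := hinj (k₀ + l) (k₀ + k) f hf.2.1 hf.1 e he.2.1 he.1 hfe
        subst hef
        exact hinj2 (k₀ + l) (k₀ + k) (by omega) f hf.2.1 hf.1 hfe

end Pool.Agent.NH78.PY
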