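import Pool.Agent.NH78.PY.Stm

/-!
# Project PY (helper78), PY-GUE: the points of the gadgets
-/

set_option autoImplicit false

namespace Pool.Agent.NH78.PY

open Finset

namespace GUEaux

lemma NN_pos (e : Finset ℕ) (he : e ≠ ∅) : 1 ≤ NN e := by
  obtain ⟨i, hi⟩ := Finset.nonempty_iff_ne_empty.mpr he
  have h1 : (2 : ℤ) ^ i ≤ NN e := by
    unfold NN
    exact Finset.single_le_sum (f := fun i => (2 : ℤ) ^ i) (fun j _ => by positivity) hi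
  have h2 : (1 : ℤ) ≤ 2 ^ i := one_le_pow₀ (by norm_num)
  linarith

lemma sum_two (E : ℕ) : ∑ i ∈ range E, (2 : ℤ) ^ i = 2 ^ E - 1 := by
  induction E with
  | zero => simp
  | succ n ih => rw [sum_range_succ, ih, pow_succ]; ring

lemma NN_lt (E : ℕ) (e : Finset ℕ) (he : e ⊆ range E) : NN e < 2 ^ E := by
  have h1 : NN e ≤ ∑ i ∈ range E, (2 : ℤ) ^ i := by
    unfold NN
    exact Finset.sum_le_sum_of_subset_of_nonneg he (fun j _ _ => by positivity)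
  rw [sum_two] at h1
  linarith

lemma NN_dvd {E L y Q₁ : ℕ} (h : Par E L y Q₁) (e : Finset ℕ) (he : e ⊆ range E) (hn : e ≠ ∅) :
    NN e ∣ (L : ℤ) := by
  have h1 := NN_pos e hn
  have h2 := NN_lt E e he
  obtain ⟨N, hN⟩ := Int.eq_ofNat_of_zero_le (show (0 : ℤ) ≤ NN e by linarith)
  rw [hN] at h1 h2 ⊢
  have h3 : N < 2 ^ E := by exact_mod_cast h2
  have h4 : 1 ≤ N := by exact_mod_cast h1
  exact Int.natCast_dvd_natCast.mpr (h.L1 N h4 h3)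

/-- the right hand side -/
def RH (L y Q₁ k : ℕ) (e : Finset ℕ) : ℤ :=
  -(L * y + 16 * (L * Q₁) * L * k) + ∑ i ∈ e, bb (L * Q₁) (2 * L) i * 2 ^ i

lemma bb_dvd (L Q₁ i : ℕ) : (L : ℤ) ∣ bb (L * Q₁) (2 * L) i := by
  unfold bb xx
  refine ⟨16 * Q₁ * ((i / 2 : ℕ) : ℤ) + 2 * ((i % 2 : ℕ) : ℤ) - 16 * Q₁, ?_⟩
  rw [Nat.cast_mul]
  ring

lemma RH_dvd (L y Q₁ k : ℕ) (e : Finset ℕ) : (L : ℤ) ∣ RH L y Q₁ k e := by
  unfold RH
  refine dvd_add ?_ ?_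
  · exact ⟨-((y : ℤ) + 16 * (L * Q₁) * k), by ring⟩
  · exact Finset.dvd_sum (fun i _ => Dvd.dvd.mul_right (bb_dvd L Q₁ i) _)

/-- the points -/
def uu (L y Q₁ k : ℕ) (e : Finset ℕ) : ℤ := RH L y Q₁ k e / NN e

lemma uu_mul {E L y Q₁ : ℕ} (h : Par E L y Q₁) (k : ℕ) (e : Finset ℕ) (he : e ⊆ range E)
    (hn : e ≠ ∅) : uu L y Q₁ k e * NN e = RH L y Q₁ k e :=
  Int.ediv_mul_cancel (dvd_trans (NN_dvd h e he hn) (RH_dvd L y Q₁ k e))

lemma uu_eq {E L y Q₁ : ℕ} (h : Par E L y Q₁) (e : Finset ℕ) (he : e ⊆ range E)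
    (hn : e ≠ ∅) : ∃ c : ℤ, 1 ≤ c ∧ ∀ k : ℕ,
      uu L y Q₁ k e = uu L y Q₁ 0 e - 16 * ((L * Q₁ : ℕ) : ℤ) * (c * k) := by
  obtain ⟨c, hc⟩ := NN_dvd h e he hn
  have hp := NN_pos e hn
  have hL : (0 : ℤ) < L := by exact_mod_cast h.L0
  have hc1 : 0 < c := by
    by_contra hneg
    have : NN e * c ≤ 0 := mul_nonpos_of_nonneg_of_nonpos (by linarith) (by linarith)
    linarith
  refine ⟨c, hc1, fun k => ?_⟩
  have h1 := uu_mul h k e he hn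
  have h2 := uu_mul h 0 e he hn
  have h3 : RH L y Q₁ k e = RH L y Q₁ 0 e - 16 * ((L * Q₁ : ℕ) : ℤ) * L * k := by
    unfold RH
    push_cast
    ring
  have h4 : NN e ≠ 0 := by intro h0; rw [h0] at hp; norm_num at hp
  apply mul_right_cancel₀ h4
  rw [h1, h3, sub_mul, h2]
  have h5 : 16 * ((L * Q₁ : ℕ) : ℤ) * L * k = 16 * ((L * Q₁ : ℕ) : ℤ) * (NN e * c) * k := by
    rw [← hc]
  rw [h5]
  ring

lemma LQ_pos {E L y Q₁ : ℕ} (h : Par E L y Q₁) : (1 : ℤ) ≤ ((L * Q₁ : ℕ) : ℤ) := by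
  have hy : 1 ≤ y := by
    have := h.y1
    omega
  have h2 : 1 ≤ y * 2 ^ (E + 3) := Nat.one_le_iff_ne_zero.mpr (by positivity)
  have h3 : 1 ≤ Q₁ := le_trans h2 h.Q1
  have h4 : 1 ≤ L * Q₁ := Nat.one_le_iff_ne_zero.mpr (Nat.mul_ne_zero h.L0.ne' (by omega))
  exact_mod_cast h4

end GUEaux

open GUEaux in
theorem t_GUE : S_GUE := by
  intro E L y Q₁ h
  have hLQ := LQ_pos h
  refine ⟨uu L y Q₁, ?_, ?_, ?_, ?_⟩
  · intro k e he hn
    exact uu_mul h k e he hn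
  · intro k e he hn
    obtain ⟨c, _, hc⟩ := uu_eq h e he hn
    refine ⟨-(c * k), ?_⟩
    rw [hc k]
    ring
  · intro k l hkl e he hn
    obtain ⟨c, hc1, hc⟩ := uu_eq h e he hn
    rw [hc k, hc l]
    have h1 : (k : ℤ) < l := by exact_mod_cast hkl
    have h2 : c * (k : ℤ) < c * l := mul_lt_mul_of_pos_left h1 (by linarith)
    have h3 : 16 * ((L * Q₁ : ℕ) : ℤ) * (c * k) < 16 * ((L * Q₁ : ℕ) : ℤ) * (c * l) :=
      mul_lt_mul_of_pos_left h2 (by linarith)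
    linarith
  · intro W
    refine ⟨(W + ∑ e ∈ (range E).powerset, |uu L y Q₁ 0 e| + 1).toNat, ?_⟩
    intro k hk e he hn
    obtain ⟨c, hc1, hc⟩ := uu_eq h e he hn
    have hk1 : W + ∑ e ∈ (range E).powerset, |uu L y Q₁ 0 e| + 1 ≤ (k : ℤ) := by
      have := Int.self_le_toNat (W + ∑ e ∈ (range E).powerset, |uu L y Q₁ 0 e| + 1)
      have hk2 : (((W + ∑ e ∈ (range E).powerset, |uu L y Q₁ 0 e| + 1).toNat : ℕ) : ℤ) ≤ (k : ℤ) := by
        exact_mod_cast hk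
      linarith
    have h1 : |uu L y Q₁ 0 e| ≤ ∑ e ∈ (range E).powerset, |uu L y Q₁ 0 e| :=
      Finset.single_le_sum (f := fun e => |uu L y Q₁ 0 e|) (fun j _ => abs_nonneg _)
        (Finset.mem_powerset.mpr he)
    have h2 := le_abs_self (uu L y Q₁ 0 e)
    have hk0 : (0 : ℤ) ≤ k := Int.natCast_nonneg k
    have h3 : (k : ℤ) ≤ c * k := by nlinarith
    have h4 : c * (k : ℤ) ≤ 16 * ((L * Q₁ : ℕ) : ℤ) * (c * k) := by
      have h5 : (0 : ℤ) ≤ c * k := le_trans hk0 h3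
      nlinarith
    rw [hc k]
    linarith

end Pool.Agent.NH78.PY
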