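import Pool.Agent.NH78.PY.Stm

/-!
# PY-ORD: the order and the residues of the numbers `u e` (helper42)
-/

set_option autoImplicit false

namespace Pool.Agent.NH78.PY

open Finset

namespace ORD

theorem xx_even {Q : ℕ} {δ : ℤ} (hδ : 0 ≤ δ) (h2 : δ % 2 = 0) (i : ℕ) :
    ∃ k : ℤ, 0 ≤ k ∧ xx Q δ i = 2 * k := by
  obtain ⟨c, hc⟩ := Int.dvd_of_emod_eq_zero h2
  have hc0 : 0 ≤ c := by omega
  refine ⟨8 * Q * ((i / 2 : ℕ) : ℤ) + c * ((i % 2 : ℕ) : ℤ), by positivity, ?_⟩
  unfold xx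
  rw [hc]
  ring

theorem eta_nonneg {Q : ℕ} {δ : ℤ} (hδ : 0 ≤ δ) (h2 : δ % 2 = 0) (s : ℕ → ℕ) (e : Finset ℕ) :
    0 ≤ eta Q δ s e := by
  unfold eta
  refine Finset.sum_nonneg fun i _ => ?_
  obtain ⟨k, hk, h⟩ := xx_even (Q := Q) hδ h2 i
  rw [h]
  positivity

theorem eta_mod {Q : ℕ} {δ : ℤ} (hδ : 0 ≤ δ) (h2 : δ % 2 = 0) {s : ℕ → ℕ} (hs : Sq Q s)
    (e : Finset ℕ) : (16 * (Q : ℤ)) ∣ eta Q δ s e := by
  unfold eta
  refine Finset.dvd_sum fun i _ => ?_
  obtain ⟨k, hk, h⟩ := xx_even (Q := Q) hδ h2 i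
  rw [h]
  have h8 : (8 * (Q : ℤ)) ∣ (s i : ℤ) := by
    rcases Nat.eq_zero_or_pos i with hi | hi
    · rw [hi, hs.h0]
      push_cast
      exact ⟨2, by ring⟩
    · have h3 := hs.h8 i hi
      have h4 := Nat.div_add_mod (s i) (16 * Q)
      rw [h3] at h4
      rw [← h4]
      push_cast
      exact ⟨2 * ((s i / (16 * Q) : ℕ) : ℤ) + 1, by push_cast; ring⟩
  obtain ⟨c, hc⟩ := h8
  rw [hc]
  exact ⟨k * c, by ring⟩

theorem odd_of_mul {a b : ℤ} (h : (a * b) % 2 = 1) : a % 2 = 1 := by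
  rcases Int.emod_two_eq_zero_or_one a with ha | ha
  · exfalso
    obtain ⟨c, hc⟩ := Int.dvd_of_emod_eq_zero ha
    have : a * b = 2 * (c * b) := by rw [hc]; ring
    omega
  · exact ha

/-- residues -/
theorem res {Q : ℤ} {u x T t : ℤ} (h : u * x = T) (hT : (16 * Q) ∣ T - t) (ht : t % 2 = 1)
    (c : Prop) [Decidable c] (hx : (16 * Q) ∣ x - (if c then 1 else 1 + 8 * Q)) :
    (16 * Q) ∣ u - (if c then t else t + 8 * Q) := by
  have hT2 : T % 2 = 1 := by
    obtain ⟨m, hm⟩ := hT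
    have : T = t + 2 * (8 * Q * m) := by linarith
    omega
  have hu : u % 2 = 1 := odd_of_mul (h ▸ hT2)
  obtain ⟨m, hm⟩ := hT
  obtain ⟨n, hn⟩ := hx
  have hu2 : u = 2 * (u / 2) + 1 := by omega
  split_ifs at hn ⊢
  · have h1 : x = 1 + 16 * Q * n := by linarith
    rw [h1] at h
    exact ⟨m - u * n, by linarith⟩
  · have h1 : x = 1 + 8 * Q + 16 * Q * n := by linarith
    rw [h1] at h
    refine ⟨m - u * n - u / 2 - 1, ?_⟩
    have h2 : u * (8 * Q) = 16 * Q * (u / 2) + 8 * Q := by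
      nth_rewrite 1 [hu2]
      ring
    linarith

end ORD

open ORD in
theorem t_ORD (h : S_GAP) : S_ORD := by
  intro Q δ t s D hQ hδ h2 ht hs hD W
  obtain ⟨g1, g2, g3, g4, g5, -⟩ := h Q δ s hQ hs
  have hQ1 : (1 : ℤ) ≤ Q := by exact_mod_cast hQ
  set P : Finset (Finset ℕ) := (range D).powerset with hP
  set S1 : ℤ := ∑ e ∈ P, eta Q δ s e with hS1
  set S2 : ℤ := ∑ e ∈ P, ∑ f ∈ P, eta Q δ s f * |xi Q s e + 16 * Q| with hS2
  set S3 : ℤ := ∑ e ∈ P, |xi Q s e + 16 * Q| with hS3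
  have hen : ∀ e, 0 ≤ eta Q δ s e := fun e => eta_nonneg hδ h2 s e
  have hS1e : ∀ e ∈ P, eta Q δ s e ≤ S1 := fun e he =>
    Finset.single_le_sum (f := fun e => eta Q δ s e) (fun e _ => hen e) he
  have hS10 : 0 ≤ S1 := Finset.sum_nonneg fun e _ => hen e
  have hS3e : ∀ e ∈ P, xi Q s e + 16 * Q ≤ S3 := fun e he =>
    (le_abs_self _).trans (Finset.single_le_sum (f := fun e => |xi Q s e + 16 * (Q : ℤ)|)
      (fun e _ => abs_nonneg _) he)
  have hS30 : 0 ≤ S3 := Finset.sum_nonneg fun e _ => abs_nonneg _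
  have hS2e : ∀ e ∈ P, ∀ f ∈ P, eta Q δ s f * (xi Q s e + 16 * Q) ≤ S2 := by
    intro e he f hf
    have h1 : eta Q δ s f * |xi Q s e + 16 * Q| ≤ ∑ f ∈ P, eta Q δ s f * |xi Q s e + 16 * Q| :=
      Finset.single_le_sum (f := fun f => eta Q δ s f * |xi Q s e + 16 * (Q : ℤ)|)
        (fun f _ => mul_nonneg (hen f) (abs_nonneg _)) hf
    have h2 : ∑ f ∈ P, eta Q δ s f * |xi Q s e + 16 * Q| ≤ S2 :=
      Finset.single_le_sum (f := fun e => ∑ f ∈ P, eta Q δ s f * |xi Q s e + 16 * (Q : ℤ)|)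
        (fun e _ => Finset.sum_nonneg fun f _ => mul_nonneg (hen f) (abs_nonneg _)) he
    have h3 : eta Q δ s f * (xi Q s e + 16 * Q) ≤ eta Q δ s f * |xi Q s e + 16 * Q| :=
      mul_le_mul_of_nonneg_left (le_abs_self _) (hen f)
    linarith
  have hS20 : 0 ≤ S2 := Finset.sum_nonneg fun e _ => Finset.sum_nonneg fun f _ =>
    mul_nonneg (hen f) (abs_nonneg _)
  have hW := le_abs_self W
  have hW0 := abs_nonneg W
  have hWQ : 0 ≤ |W| * (16 * (Q : ℤ)) := by positivity
  have hWS : 0 ≤ |W| * S3 := by positivity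
  refine ⟨|W| + |W| * (16 * Q) + |W| * S3 + 32 * Q + 1 + S1 + S2, ?_⟩
  intro T u hT hTt hu
  have hT0 : 0 < T := by linarith
  have h0D : ({0} : Finset ℕ) ⊆ range D := by
    rw [Finset.singleton_subset_iff, Finset.mem_range]
    omega
  have hins : ∀ e ⊆ range D, insert 0 e ⊆ range D := by
    intro e he
    rw [Finset.insert_subset_iff, Finset.mem_range]
    exact ⟨by omega, he⟩
  have hu2 : ∀ e ⊆ range D, 0 ∉ e → u (insert 0 e) * (xi Q s e + 16 * Q) = T + eta Q δ s e := by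
    intro e he h0
    have h1 := hu _ (hins e he)
    rwa [(g4 e h0).1, (g4 e h0).2] at h1
  have hxe : xi Q s ∅ = 1 - 16 * Q := by simp [xi]
  have hee : eta Q δ s ∅ = 0 := by simp [eta]
  have hx0 : xi Q s {0} = 1 := by simp [xi, hs.h0]
  have he0 : eta Q δ s {0} = 0 := by simp [eta, xx]
  have hx100 : ∀ e, 0 ∉ e → e ≠ ∅ → 100 ≤ xi Q s e := fun e h0 h1 => by
    have := g3 e h0 h1
    linarith
  refine ⟨⟨?_, ?_, by linarith⟩, ?_, ?_, ?_⟩
  · have h1 := hu _ h0D
    rw [hx0, he0] at h1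
    linarith
  · have h1 := hu ∅ (Finset.empty_subset _)
    rw [hxe, hee] at h1
    by_contra hc
    rw [not_lt] at hc
    have h3 : 0 ≤ (u ∅ + W) * (16 * Q - 1) := mul_nonneg (by linarith) (by linarith)
    have h4 : 0 ≤ (|W| - W) * (16 * (Q : ℤ) - 1) := mul_nonneg (by linarith) (by linarith)
    nlinarith
  · intro e he h0 hne
    have hx := hx100 e h0 hne
    have h1 := hu e he
    have h2 := hu2 e he h0
    have h3 := hen e
    have h4 := hS1e e (Finset.mem_powerset.2 he)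
    have h4' := hS3e e (Finset.mem_powerset.2 he)
    have hTp : 0 < T + eta Q δ s e := by linarith
    have hxp : 0 < xi Q s e + 16 * Q := by linarith
    have h5 : 0 < u (insert 0 e) := by
      by_contra hc
      rw [not_lt] at hc
      have := mul_nonneg (neg_nonneg.2 hc) hxp.le
      linarith
    refine ⟨?_, ?_, ?_⟩
    · by_contra hc
      rw [not_lt] at hc
      have h6 : 0 ≤ (|W| - u (insert 0 e)) * (xi Q s e + 16 * Q) :=
        mul_nonneg (by linarith) hxp.le
      have h7 : |W| * (xi Q s e + 16 * Q) ≤ |W| * S3 := mul_le_mul_of_nonneg_left h4' hW0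
      linarith
    · by_contra hc
      rw [not_lt] at hc
      have h6 : 0 ≤ (u (insert 0 e) - u e) * xi Q s e := mul_nonneg (by linarith) (by linarith)
      have h7 : 0 < u (insert 0 e) * (16 * (Q : ℤ)) := by positivity
      linarith
    · by_contra hc
      rw [not_le] at hc
      have h6 : 0 ≤ (u e - (T - 16 * Q)) * xi Q s e := mul_nonneg (by linarith) (by linarith)
      have h7 : 0 ≤ (T - 16 * Q) * (xi Q s e - 2) := mul_nonneg (by linarith) (by linarith)
      linarith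
  · intro e he f hf h0e h0f hne hnf hef
    have key : ∀ e f : Finset ℕ, e ⊆ range D → f ⊆ range D → 0 ∉ e → 0 ∉ f → 100 ≤ xi Q s e →
        100 ≤ xi Q s f → xi Q s e + 16 * Q + 1 ≤ xi Q s f → u f ≤ u (insert 0 e) := by
      intro e f he hf h0e h0f hxe' hxf' hgap
      have h1 := hu f hf
      have h2 := hu2 e he h0e
      have h3 := hS2e e (Finset.mem_powerset.2 he) f (Finset.mem_powerset.2 hf)
      have h4 := hen e
      have h5 := hen f
      have hep : 0 < xi Q s e + 16 * Q := by linarith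
      have hfp : 0 < xi Q s f := by linarith
      have h6 : (T + eta Q δ s f) * (xi Q s e + 16 * Q) ≤ (T + eta Q δ s e) * xi Q s f := by
        have h7 : eta Q δ s f * (xi Q s e + 16 * Q) ≤ T := by linarith
        have h8 : 0 ≤ eta Q δ s e * xi Q s f := by positivity
        have h9 : 0 ≤ T * (xi Q s f - xi Q s e - 16 * Q - 1) :=
          mul_nonneg (by linarith) (by linarith)
        linarith
      rw [← h1, ← h2] at h6
      have h10 : u f * (xi Q s f * (xi Q s e + 16 * Q)) ≤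
          u (insert 0 e) * (xi Q s f * (xi Q s e + 16 * Q)) := by
        linarith
      exact le_of_mul_le_mul_right h10 (by positivity)
    rcases g2 e f h0e h0f hef with hg | hg
    · left
      exact key e f he hf h0e h0f (hx100 e h0e hne) (hx100 f h0f hnf) hg
    · right
      exact key f e hf he h0f h0e (hx100 f h0f hnf) (hx100 e h0e hne) hg
  · intro e he h0
    have h1 := hu e he
    have h3 := hu2 e he h0
    have hm := eta_mod hδ h2 hs e
    have hTm : (16 * (Q : ℤ)) ∣ T + eta Q δ s e - t := by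
      have : T + eta Q δ s e - t = (T - t) + eta Q δ s e := by ring
      rw [this]
      exact dvd_add hTt hm
    have hx := g5 e h0
    have hx2 : (16 * (Q : ℤ)) ∣ xi Q s e + 16 * Q -
        (if e.card % 2 = 0 then 1 else 1 + 8 * (Q : ℤ)) := by
      have : xi Q s e + 16 * Q - (if e.card % 2 = 0 then 1 else 1 + 8 * (Q : ℤ)) =
          (xi Q s e - (if e.card % 2 = 0 then 1 else 1 + 8 * (Q : ℤ))) + 16 * Q := by ring
      rw [this]
      exact dvd_add hx (dvd_refl _)
    have r1 := res h1 hTm ht _ hx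
    have r2 := res h3 hTm ht _ hx2
    refine ⟨r1, ?_⟩
    obtain ⟨k, hk⟩ : (16 * (Q : ℤ)) ∣ u e - u (insert 0 e) := by
      have := dvd_sub r1 r2
      have e1 : u e - (if e.card % 2 = 0 then t else t + 8 * (Q : ℤ)) -
          (u (insert 0 e) - (if e.card % 2 = 0 then t else t + 8 * (Q : ℤ))) =
          u e - u (insert 0 e) := by ring
      rwa [e1] at this
    refine ⟨k, ?_, hk⟩
    have h4 : k * xi Q s e = u (insert 0 e) := by
      have h5 : (u e - u (insert 0 e)) * xi Q s e = 16 * Q * u (insert 0 e) := by linarith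
      rw [hk] at h5
      have h6 : (16 * (Q : ℤ)) * (k * xi Q s e) = (16 * Q) * u (insert 0 e) := by linarith
      exact mul_left_cancel₀ (by positivity) h6
    have hT2 : (T + eta Q δ s e) % 2 = 1 := by
      obtain ⟨m, hm⟩ := hTm
      have : T + eta Q δ s e = t + 2 * (8 * Q * m) := by linarith
      omega
    have h6 : u (insert 0 e) % 2 = 1 := odd_of_mul (h3 ▸ hT2)
    exact odd_of_mul (h4 ▸ h6)

end Pool.Agent.NH78.PY
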