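import Pool.Agent.NH78.PY.Stm

/-!
# PY-PAR: parameters exist
-/

set_option autoImplicit false

namespace Pool.Agent.NH78.PY

/-- PY-PAR -/
theorem t_PAR : S_PAR := by
  intro E hE
  refine ⟨Nat.factorial (2 ^ E), 2 ^ (2 * E + 3) + 1, (2 ^ (2 * E + 3) + 1) * 2 ^ (E + 3), ?_⟩
  refine ⟨hE, Nat.factorial_pos _, fun N h1 h2 => Nat.dvd_factorial h1 h2.le, ?_, by omega, le_rfl⟩
  have h : 2 ^ (2 * E + 3) = 2 * 2 ^ (2 * E + 2) := by rw [← pow_succ']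
  omega

end Pool.Agent.NH78.PY
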