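import Pool.Agent.NH78.PY.Stm

/-!
# Project PY (helper78), part PRG: the numbers of elements of the sets `R` form a progression
-/

set_option autoImplicit false

namespace Pool.Agent.NH78.PY

open Finset
open Pool.Agent.NH9.PX (PR Ev Od)

namespace PRG

/-- the exact quotient -/
def uu (Q : ℕ) (δ : ℤ) (s : ℕ → ℕ) (T : ℤ) (e : Finset ℕ) : ℤ := (T + eta Q δ s e) / xi Q s e

/-- the difference, times `16 Q` -/
def bq (Q : ℕ) (s : ℕ → ℕ) (D : ℕ) (M : ℤ) : ℤ :=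
  ∑ e ∈ Od D, M / xi Q s e - ∑ e ∈ Ev D, M / xi Q s e

theorem sub_of_Od {D : ℕ} {e : Finset ℕ} (h : e ∈ Od D) : e ⊆ range D := by
  unfold Od at h
  simp only [mem_filter, mem_powerset] at h
  exact h.1

theorem sub_of_Ev {D : ℕ} {e : Finset ℕ} (h : e ∈ Ev D) : e ⊆ range D := by
  unfold Ev at h
  simp only [mem_filter, mem_powerset] at h
  exact h.1

theorem steps (hR : S_SET) {Q : ℕ} {δ t : ℤ} {D : ℕ} (hQ : 1 ≤ Q) (hδ : 0 ≤ δ) (hδ2 : δ % 2 = 0)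
    (ht : t % 2 = 1) (hD : 2 ≤ D) {s : ℕ → ℕ} (hs : Sq Q s) {T₀ M : ℤ} (hM : 0 < M)
    (hqM : (16 * (Q : ℤ)) ∣ M) (hqT : (16 * (Q : ℤ)) ∣ T₀ - t)
    (hx : ∀ e ⊆ range D, xi Q s e ∣ M ∧ xi Q s e ∣ T₀ + eta Q δ s e) (W : ℤ) :
    ∃ (T₁ : ℤ) (R : ℕ → Finset ℤ), ∀ j : ℕ, IsR Q δ t D W (R j) ∧
      16 * (Q : ℤ) * ((R j).card : ℤ) = 16 * (Q : ℤ) * ((R 0).card : ℤ) + bq Q s D M * j ∧
      T₁ + M * j ≤ 16 * Q * (16 * Q) * ((R j).card : ℤ) := by
  obtain ⟨B', hB⟩ := hR Q δ t s D hQ hδ hδ2 ht hs hD W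
  set N : ℤ := |B'| + |T₀| with hN
  have hN0 : 0 ≤ N := by positivity
  have hT1 : B' ≤ T₀ + M * N := by
    have h1 := le_abs_self B'
    have h2 := neg_abs_le T₀
    nlinarith [mul_le_mul_of_nonneg_right (show (1 : ℤ) ≤ M by omega) hN0]
  have hxne : ∀ e ⊆ range D, xi Q s e ≠ 0 := by
    intro e he h0
    have h1 := (hx e he).1
    rw [h0, zero_dvd_iff] at h1
    omega
  have hdiv : ∀ e ⊆ range D, ∀ n : ℤ,
      uu Q δ s (T₀ + M * n) e * xi Q s e = T₀ + M * n + eta Q δ s e := by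
    intro e he n
    unfold uu
    apply Int.ediv_mul_cancel
    have h1 := (hx e he).2.add ((hx e he).1.mul_right n)
    have h2 : T₀ + M * n + eta Q δ s e = T₀ + eta Q δ s e + M * n := by ring
    rw [h2]
    exact h1
  have hu : ∀ j : ℕ, UU Q δ s D (T₀ + M * (N + j)) (uu Q δ s (T₀ + M * (N + j))) :=
    fun j e he => hdiv e he _
  have hex : ∀ j : ℕ, ∃ R : Finset ℤ, IsR Q δ t D W R ∧
      16 * (Q : ℤ) * (R.card : ℤ) = ∑ e ∈ Od D, uu Q δ s (T₀ + M * (N + j)) e -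
        ∑ e ∈ Ev D, uu Q δ s (T₀ + M * (N + j)) e ∧
      T₀ + M * (N + j) ≤ 16 * Q * (16 * Q) * (R.card : ℤ) := by
    intro j
    refine hB _ _ ?_ ?_ (hu j)
    · have : 0 ≤ M * (j : ℤ) := by positivity
      rw [mul_add]
      linarith
    · have h1 := hqT.add (hqM.mul_right (N + j))
      have h2 : T₀ + M * (N + j) - t = T₀ - t + M * (N + j) := by ring
      rw [h2]
      exact h1
  choose R h1 h2 h3 using hex
  have hstep : ∀ (j : ℕ) (e : Finset ℕ), e ⊆ range D →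
      uu Q δ s (T₀ + M * (N + j)) e = uu Q δ s (T₀ + M * (N + (0 : ℕ))) e + M / xi Q s e * j := by
    intro j e he
    apply mul_right_cancel₀ (hxne e he)
    rw [hdiv e he, add_mul, hdiv e he]
    have h4 : M / xi Q s e * xi Q s e = M := Int.ediv_mul_cancel (hx e he).1
    calc T₀ + M * (N + j) + eta Q δ s e
        = T₀ + M * (N + (0 : ℕ)) + eta Q δ s e + M * j := by push_cast; ring
      _ = T₀ + M * (N + (0 : ℕ)) + eta Q δ s e + M / xi Q s e * j * xi Q s e := by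
          rw [mul_right_comm, h4]
  refine ⟨T₀ + M * N, R, fun j => ⟨h1 j, ?_, ?_⟩⟩
  · rw [h2 j, h2 0]
    have e1 : ∑ e ∈ Od D, uu Q δ s (T₀ + M * (N + j)) e =
        ∑ e ∈ Od D, uu Q δ s (T₀ + M * (N + (0 : ℕ))) e + (∑ e ∈ Od D, M / xi Q s e) * j := by
      rw [sum_mul, ← sum_add_distrib]
      exact sum_congr rfl fun e he => hstep j e (sub_of_Od he)
    have e2 : ∑ e ∈ Ev D, uu Q δ s (T₀ + M * (N + j)) e =
        ∑ e ∈ Ev D, uu Q δ s (T₀ + M * (N + (0 : ℕ))) e + (∑ e ∈ Ev D, M / xi Q s e) * j := by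
      rw [sum_mul, ← sum_add_distrib]
      exact sum_congr rfl fun e he => hstep j e (sub_of_Ev he)
    rw [e1, e2]
    unfold bq
    ring
  · have h4 := h3 j
    rw [mul_add] at h4
    linarith

end PRG

open PRG in
theorem t_PRG (hS : S_SEQ) (hX : S_TEX) (hR : S_SET) : S_PRG := by
  intro Q δ t D hQ hδ hδ2 ht hD
  obtain ⟨s, hs⟩ := hS Q hQ
  obtain ⟨T₀, M, hM, hqM, hqT, hx⟩ := hX Q δ t s D hQ hs
  have hQ' : (0 : ℤ) < 16 * (Q : ℤ) := by
    have : (1 : ℤ) ≤ (Q : ℤ) := by exact_mod_cast hQ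
    linarith
  have hst := steps hR hQ hδ hδ2 ht hD hs hM hqM hqT hx
  obtain ⟨g, hg, hb⟩ : ∃ g : ℕ, 0 < g ∧ bq Q s D M = 16 * (Q : ℤ) * g := by
    obtain ⟨T₁, R, h⟩ := hst 0
    have hbpos : 0 < bq Q s D M := by
      by_contra hneg
      push Not at hneg
      set c : ℤ := 16 * Q * (16 * Q) * ((R 0).card : ℤ) with hc
      set j : ℕ := (|c| + |T₁| + 1).toNat with hj
      have hj' : (j : ℤ) = |c| + |T₁| + 1 := by
        rw [hj, Int.toNat_of_nonneg (by positivity)]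
      obtain ⟨-, h1, h2⟩ := h j
      have h3 : 16 * (Q : ℤ) * ((R j).card : ℤ) ≤ 16 * (Q : ℤ) * ((R 0).card : ℤ) := by
        rw [h1]
        nlinarith [mul_nonneg (neg_nonneg.2 hneg) (Int.natCast_nonneg j)]
      have h4 : 16 * Q * (16 * Q) * ((R j).card : ℤ) ≤ c := by
        have h5 := mul_le_mul_of_nonneg_left h3 hQ'.le
        rw [hc, mul_assoc (16 * (Q : ℤ)), mul_assoc (16 * (Q : ℤ))]
        exact h5
      have h5 : (j : ℤ) ≤ M * j := le_mul_of_one_le_left (Int.natCast_nonneg j) (by omega)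
      have h6 := le_abs_self c
      have h7 := neg_abs_le T₁
      linarith
    obtain ⟨-, h1, -⟩ := h 1
    have h2 : bq Q s D M = 16 * (Q : ℤ) * (((R 1).card : ℤ) - (R 0).card) := by
      push_cast at h1
      linarith
    have h3 : 0 < ((R 1).card : ℤ) - (R 0).card := by
      rw [h2] at hbpos
      exact pos_of_mul_pos_right hbpos hQ'.le
    refine ⟨(((R 1).card : ℤ) - (R 0).card).toNat, by omega, ?_⟩
    rw [Int.toNat_of_nonneg h3.le, h2]
  refine ⟨g, hg, fun W => ?_⟩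
  obtain ⟨T₁, R, h⟩ := hst W
  refine ⟨(R 0).card, fun j => ⟨R j, ?_, (h j).1⟩⟩
  have h1 := (h j).2.1
  rw [hb] at h1
  have h2 : 16 * (Q : ℤ) * ((R j).card : ℤ) = 16 * (Q : ℤ) * ((((R 0).card + g * j : ℕ)) : ℤ) := by
    rw [h1]
    push_cast
    ring
  exact_mod_cast mul_left_cancel₀ hQ'.ne' h2

end Pool.Agent.NH78.PY
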