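import Pool.Agent.NH78.PY.Stm

/-!
# PY-REF: adding the reflection
-/

set_option autoImplicit false

namespace Pool.Agent.NH78.PY

open Finset Polynomial
open Pool.Agent.NH9.PX (PR Ev Od)

namespace REF

/-- twice the centre of the reflection -/
def c0 (Q : ℕ) (δ : ℤ) (D : ℕ) : ℤ := 16 * (Q : ℤ) * (((D / 2 : ℕ) : ℤ) - 2) + δ

theorem bb_add (Q : ℕ) (δ : ℤ) (D i : ℕ) (hD : D % 4 = 0) (hi : i < D + 2) :
    bb Q δ i + bb Q δ (D + 1 - i) = c0 Q δ D := by
  unfold bb xx c0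
  have h1 : i / 2 + (D + 1 - i) / 2 = D / 2 := by omega
  have h2 : i % 2 + (D + 1 - i) % 2 = 1 := by omega
  have h1' : ((i / 2 : ℕ) : ℤ) + (((D + 1 - i) / 2 : ℕ) : ℤ) = ((D / 2 : ℕ) : ℤ) := by
    exact_mod_cast h1
  have h2' : ((i % 2 : ℕ) : ℤ) + (((D + 1 - i) % 2 : ℕ) : ℤ) = 1 := by
    exact_mod_cast h2
  linear_combination 16 * (Q : ℤ) * h1' + δ * h2'

theorem bb_two (Q : ℕ) (δ : ℤ) (i : ℕ) : bb Q δ (i + 2) = xx Q δ i := by
  unfold bb xx
  have h1 : (i + 2) / 2 = i / 2 + 1 := by omega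
  have h2 : (i + 2) % 2 = i % 2 := by omega
  rw [h1, h2]
  push_cast
  ring

theorem PR_image (R : Finset ℤ) (q x : ℤ) (h : R.card % 2 = 0) :
    PR (R.image (fun a => q - a)) x = PR R (q - x) := by
  unfold PR
  rw [Finset.prod_image (fun a _ b _ hab => by simpa using hab)]
  have : ∀ a ∈ R, x - (q - a) = (-1) * (q - x - a) := fun a _ => by ring
  rw [Finset.prod_congr rfl this, Finset.prod_mul_distrib, Finset.prod_const]
  rw [(Nat.even_iff.mpr h).neg_one_pow, one_mul]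

theorem disj (Q : ℕ) (δ t : ℤ) (R : Finset ℤ) (D : ℕ)
    (hR : ∀ a ∈ R, (8 * (Q : ℤ)) ∣ a - t) (hn : ¬ (8 * (Q : ℤ)) ∣ 2 * t - δ) :
    Disjoint R (R.image (fun a => c0 Q δ D - a)) := by
  rw [Finset.disjoint_left]
  intro a ha hb
  rw [Finset.mem_image] at hb
  obtain ⟨b, hb, rfl⟩ := hb
  have h1 := hR _ ha
  have h2 := hR _ hb
  apply hn
  have h3 := dvd_add h1 h2
  have h4 : 2 * t - δ = 8 * (Q : ℤ) * (2 * (((D / 2 : ℕ) : ℤ) - 2)) -
      (c0 Q δ D - b - t + (b - t)) := by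
    unfold c0
    ring
  rw [h4]
  exact dvd_sub (Dvd.intro _ rfl) h3

theorem PR_A (Q : ℕ) (δ t : ℤ) (R : Finset ℤ) (D : ℕ)
    (hR : ∀ a ∈ R, (8 * (Q : ℤ)) ∣ a - t) (hn : ¬ (8 * (Q : ℤ)) ∣ 2 * t - δ)
    (h : R.card % 2 = 0) (x : ℤ) :
    PR (R ∪ R.image (fun a => c0 Q δ D - a)) x = PR R x * PR R (c0 Q δ D - x) := by
  rw [← PR_image R (c0 Q δ D) x h]
  unfold PR
  exact Finset.prod_union (disj Q δ t R D hR hn)

theorem chain (Q : ℕ) (δ : ℤ) (R : Finset ℤ) (C : ℚ) (D : ℕ)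
    (hC : ∀ i < D, (PR R (xx Q δ i) : ℚ) = C * PR R (xx Q δ i - 16 * Q)) (r : ℕ) :
    ∀ j : ℕ, 2 * j + r < D + 2 → (PR R (bb Q δ (2 * j + r)) : ℚ) = C ^ j * PR R (bb Q δ r) := by
  intro j
  induction j with
  | zero => intro _; simp
  | succ j ih =>
    intro hj
    have h1 : 2 * j + r < D := by omega
    have h2 := hC _ h1
    have h3 : 2 * (j + 1) + r = (2 * j + r) + 2 := by ring
    rw [h3, bb_two, h2]
    have h4 : xx Q δ (2 * j + r) - 16 * Q = bb Q δ (2 * j + r) := rfl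
    rw [h4, ih (by omega), pow_succ]
    ring

theorem val (Q : ℕ) (δ : ℤ) (R : Finset ℤ) (C : ℚ) (D : ℕ) (hD : D % 4 = 0)
    (hC : ∀ i < D, (PR R (xx Q δ i) : ℚ) = C * PR R (xx Q δ i - 16 * Q)) (i : ℕ)
    (hi : i < D + 2) :
    (PR R (bb Q δ i) : ℚ) * PR R (bb Q δ (D + 1 - i)) =
      C ^ (D / 2) * (PR R (bb Q δ 0) * PR R (bb Q δ 1)) := by
  have hc := chain Q δ R C D hC
  rcases Nat.mod_two_eq_zero_or_one i with h | h
  · have e1 : i = 2 * (i / 2) + 0 := by omega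
    have e2 : D + 1 - i = 2 * (D / 2 - i / 2) + 1 := by omega
    have e3 : D / 2 = i / 2 + (D / 2 - i / 2) := by omega
    have h1 := hc 0 (i / 2) (by omega)
    have h2 := hc 1 (D / 2 - i / 2) (by omega)
    rw [← e1] at h1
    rw [← e2] at h2
    rw [h1, h2]
    have e4 : C ^ (D / 2) = C ^ (i / 2) * C ^ (D / 2 - i / 2) := by
      rw [← pow_add]
      exact congrArg _ e3
    rw [e4]
    ring
  · have e1 : i = 2 * (i / 2) + 1 := by omega
    have e2 : D + 1 - i = 2 * (D / 2 - i / 2) + 0 := by omega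
    have e3 : D / 2 = i / 2 + (D / 2 - i / 2) := by omega
    have h1 := hc 1 (i / 2) (by omega)
    have h2 := hc 0 (D / 2 - i / 2) (by omega)
    rw [← e1] at h1
    rw [← e2] at h2
    rw [h1, h2]
    have e4 : C ^ (D / 2) = C ^ (i / 2) * C ^ (D / 2 - i / 2) := by
      rw [← pow_add]
      exact congrArg _ e3
    rw [e4]
    ring

theorem mod_eq (Q : ℕ) (t a : ℤ) (h : (8 * (Q : ℤ)) ∣ a - t) : a % (8 * Q) = t % (8 * Q) := by
  have h1 : t ≡ a [ZMOD 8 * (Q : ℤ)] := Int.modEq_iff_dvd.mpr h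
  exact h1.symm

theorem pos01 (Q : ℕ) (δ t : ℤ) (R : Finset ℤ) (hQ : 1 ≤ Q) (hδ : 0 < δ)
    (ht : δ < t % (8 * Q)) (hR : ∀ a ∈ R, (8 * (Q : ℤ)) ∣ a - t) :
    0 < PR R (bb Q δ 0) * PR R (bb Q δ 1) := by
  have e0 : bb Q δ 0 = -(16 * Q) := by simp [bb, xx]
  have e1 : bb Q δ 1 = δ - 16 * Q := by simp [bb, xx]
  have hQ' : (0 : ℤ) < 8 * Q := by
    have : (1 : ℤ) ≤ Q := by exact_mod_cast hQ
    linarith
  have hlt : t % (8 * Q) < 8 * Q := Int.emod_lt_of_pos _ hQ'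
  rw [e0, e1]
  unfold PR
  rw [← Finset.prod_mul_distrib]
  refine Finset.prod_pos fun a ha => ?_
  have h := mod_eq Q t a (hR a ha)
  rcases lt_or_ge a (-(16 * (Q : ℤ))) with h1 | h1
  · exact mul_pos (by linarith) (by linarith)
  · have h2 : δ - 16 * Q < a := by
      by_contra hcon
      push Not at hcon
      have h3 : (a + 16 * Q) % (8 * Q) = a + 16 * Q :=
        Int.emod_eq_of_lt (by linarith) (by linarith)
      have h4 : (a + 16 * Q) % (8 * Q) = a % (8 * Q) := by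
        have : a + 16 * (Q : ℤ) = a + (8 * Q) * 2 := by ring
        rw [this, Int.add_mul_emod_self_left]
      rw [h4, h] at h3
      linarith
    have h3 : 0 < (a + 16 * Q) * (a + 16 * Q - δ) := mul_pos (by linarith) (by linarith)
    nlinarith [h3]

theorem C_ne (Q : ℕ) (δ t : ℤ) (R : Finset ℤ) (C : ℚ) (D : ℕ) (hD : 4 ≤ D) (hδ : 0 < δ)
    (ht : δ < t % (8 * Q)) (hR : ∀ a ∈ R, (8 * (Q : ℤ)) ∣ a - t)
    (hC : ∀ i < D, (PR R (xx Q δ i) : ℚ) = C * PR R (xx Q δ i - 16 * Q)) : C ≠ 0 := by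
  intro h
  have h1 := hC 0 (by omega)
  rw [h, zero_mul] at h1
  have h2 : PR R (xx Q δ 0) = 0 := by exact_mod_cast h1
  unfold PR at h2
  rw [Finset.prod_eq_zero_iff] at h2
  obtain ⟨a, ha, h3⟩ := h2
  have e0 : xx Q δ 0 = 0 := by simp [xx]
  rw [e0] at h3
  have ha0 : a = 0 := by linarith
  have h4 := mod_eq Q t a (hR a ha)
  rw [ha0, Int.zero_emod] at h4
  linarith

end REF

theorem t_REF : S_REF := by
  intro Q δ t D W R hQ hδ hδ2 ht2 ht hn hD hD4 hR
  obtain ⟨hR2, hcls, hnear, hfar, C, hC⟩ := hR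
  have hQ1 : (1 : ℤ) ≤ Q := by exact_mod_cast hQ
  have hQ' : (0 : ℤ) < 8 * Q := by linarith
  have hδ8 : δ < 8 * Q := ht.trans (Int.emod_lt_of_pos _ hQ')
  have hval : ∀ i < D + 2, (PR (R ∪ R.image (fun a => REF.c0 Q δ D - a)) (bb Q δ i) : ℚ)
      = C ^ (D / 2) * (PR R (bb Q δ 0) * PR R (bb Q δ 1)) := by
    intro i hi
    rw [REF.PR_A Q δ t R D hcls hn hR2, ← REF.val Q δ R C D hD hC i hi]
    have e : REF.c0 Q δ D - bb Q δ i = bb Q δ (D + 1 - i) := by
      have := REF.bb_add Q δ D i hD hi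
      linarith
    rw [e]
    push_cast
    ring
  refine ⟨R ∪ R.image (fun a => REF.c0 Q δ D - a), ?_, ?_, ?_, ?_, ?_⟩
  · rw [Finset.card_union_of_disjoint (REF.disj Q δ t R D hcls hn),
      Finset.card_image_of_injective _ (fun a b hab => by simpa using hab)]
    ring
  · intro a ha
    refine ⟨t, Finset.mem_singleton_self t, ?_⟩
    rw [Finset.mem_union, Finset.mem_image] at ha
    rcases ha with ha | ⟨b, hb, rfl⟩
    · exact Or.inl (hcls a ha)
    · right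
      have h1 := hcls b hb
      have h2 : REF.c0 Q δ D - b + t - δ =
          8 * (Q : ℤ) * (2 * (((D / 2 : ℕ) : ℤ) - 2)) - (b - t) := by
        unfold REF.c0
        ring
      rw [h2]
      exact dvd_sub (Dvd.intro _ rfl) h1
  · intro a ha
    have hd : (2 : ℤ) ≤ ((D / 2 : ℕ) : ℤ) := by
      have : 2 ≤ D / 2 := by omega
      exact_mod_cast this
    have hd2 : 2 * ((D / 2 : ℕ) : ℤ) = D := by
      have : 2 * (D / 2) = D := by omega
      exact_mod_cast this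
    have hW : a ≤ |W| ∧ -|W| ≤ a := by
      have h1 := abs_le.mp (ha.trans (le_abs_self W))
      exact ⟨h1.2, h1.1⟩
    have hc1 : 0 ≤ REF.c0 Q δ D := by
      unfold REF.c0
      have : 0 ≤ 16 * (Q : ℤ) * (((D / 2 : ℕ) : ℤ) - 2) :=
        mul_nonneg (by linarith) (by linarith)
      linarith
    have hc2 : REF.c0 Q δ D ≤ 16 * Q * ((D : ℤ) + 2) := by
      unfold REF.c0
      have h1 : 16 * (Q : ℤ) * (((D / 2 : ℕ) : ℤ) - 2) ≤ 16 * (Q : ℤ) * D :=
        mul_le_mul_of_nonneg_left (by linarith) (by linarith)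
      have h2 : 16 * (Q : ℤ) * ((D : ℤ) + 2) = 16 * (Q : ℤ) * D + 32 * Q := by ring
      linarith
    have n1 := hnear a (by
      rw [abs_le]
      constructor <;> linarith [hW.1, hW.2])
    have n2 := hnear (REF.c0 Q δ D - a) (by
      rw [abs_le]
      constructor <;> linarith [hW.1, hW.2])
    have h3 : (16 * (Q : ℤ)) ∣ REF.c0 Q δ D - a - t ↔ (16 * (Q : ℤ)) ∣ a + t - δ := by
      have e : REF.c0 Q δ D - a - t =
          16 * (Q : ℤ) * (((D / 2 : ℕ) : ℤ) - 2) - (a + t - δ) := by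
        unfold REF.c0
        ring
      rw [e]
      exact dvd_sub_right (Dvd.intro _ rfl)
    rw [Finset.mem_union, Finset.mem_image]
    constructor
    · rintro (h | ⟨b, hb, hba⟩)
      · exact ⟨t, Finset.mem_singleton_self t, Or.inl (n1.mp h)⟩
      · refine ⟨t, Finset.mem_singleton_self t, Or.inr (h3.mp (n2.mp ?_))⟩
        have : REF.c0 Q δ D - a = b := by linarith
        rw [this]
        exact hb
    · rintro ⟨t', ht', h⟩
      rw [Finset.mem_singleton] at ht'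
      subst ht'
      rcases h with h | h
      · exact Or.inl (n1.mpr h)
      · exact Or.inr ⟨REF.c0 Q δ D - a, n2.mpr (h3.mpr h), by ring⟩
  · obtain ⟨a, ha, h⟩ := hfar
    refine ⟨a, Finset.mem_union_left _ ha, ?_⟩
    have h1 : (0 : ℤ) ≤ 16 * (Q : ℤ) * ((D : ℤ) + 2) :=
      mul_nonneg (by linarith) (by positivity)
    linarith [le_abs_self W]
  · refine ⟨PR (R ∪ R.image (fun a => REF.c0 Q δ D - a)) (bb Q δ 0), ?_, ?_⟩
    · have h0 := hval 0 (by omega)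
      have h1 : (0 : ℚ) < C ^ (D / 2) * (PR R (bb Q δ 0) * PR R (bb Q δ 1)) := by
        refine mul_pos ?_ ?_
        · have hev : Even (D / 2) := Nat.even_iff.mpr (by omega)
          exact hev.pow_pos (REF.C_ne Q δ t R C D hD4 hδ ht hcls hC)
        · have := REF.pos01 Q δ t R hQ hδ ht hcls
          exact_mod_cast this
      rw [← h0] at h1
      exact_mod_cast h1
    · intro i hi
      have h0 := hval 0 (by omega)
      have h1 := hval i hi
      rw [← h0] at h1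
      exact_mod_cast h1

end Pool.Agent.NH78.PY
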