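import Pool.Agent.NH78.PY.Stm

/-!
# PY-SCL: scaling by a power of two
-/

set_option autoImplicit false

namespace Pool.Agent.NH78.PY

open Finset Polynomial
open Pool.Agent.NH9.PX (PR Ev Od S_CRT)

namespace Scl

lemma bb_scale (v Q : ℕ) (δ : ℤ) (i : ℕ) :
    bb (2 ^ v * Q) (2 ^ v * δ) i = 2 ^ v * bb Q δ i := by
  unfold bb xx
  push_cast
  ring

lemma inj (v : ℕ) : Function.Injective (fun a : ℤ => 2 ^ v * a) := by
  intro a b h
  have h2 : (2 : ℤ) ^ v ≠ 0 := by positivity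
  exact mul_left_cancel₀ h2 h

lemma PR_scale (v : ℕ) (A : Finset ℤ) (x : ℤ) :
    PR (A.image (fun a : ℤ => 2 ^ v * a)) (2 ^ v * x) = (2 ^ v) ^ A.card * PR A x := by
  unfold Pool.Agent.NH9.PX.PR
  rw [Finset.prod_image (fun a _ b _ h => inj v h)]
  have h : ∀ a ∈ A, (2 ^ v * x - 2 ^ v * a : ℤ) = 2 ^ v * (x - a) := fun a _ => by ring
  rw [Finset.prod_congr rfl h, Finset.prod_mul_distrib, Finset.prod_const]

lemma dvd_iff (v Q : ℕ) (c x : ℤ) :
    (c * ((2 ^ v * Q : ℕ) : ℤ)) ∣ 2 ^ v * x ↔ (c * (Q : ℤ)) ∣ x := by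
  have h : c * ((2 ^ v * Q : ℕ) : ℤ) = 2 ^ v * (c * (Q : ℤ)) := by push_cast; ring
  rw [h]
  exact mul_dvd_mul_iff_left (by positivity)

lemma abs_le_scale (v : ℕ) (a : ℤ) : |a| ≤ |2 ^ v * a| := by
  rw [abs_mul, abs_of_pos (by positivity : (0 : ℤ) < 2 ^ v)]
  have h1 : (1 : ℤ) ≤ 2 ^ v := one_le_pow₀ (by norm_num)
  nlinarith [abs_nonneg a]

end Scl

open Scl in
/-- PY-SCL -/
theorem t_SCL : S_SCL := by
  intro v Q δ t D hQ hG
  obtain ⟨g, hg, hG⟩ := hG
  refine ⟨g, hg, fun W => ?_⟩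
  obtain ⟨r₀, hr⟩ := hG |W|
  refine ⟨r₀, fun j => ?_⟩
  obtain ⟨A, hc, hA⟩ := hr j
  refine ⟨A.image (fun a : ℤ => 2 ^ v * a), ?_, ?_, ?_, ?_, ?_⟩
  · rw [Finset.card_image_of_injective _ (inj v), hc]
  · intro a' ha'
    obtain ⟨a, ha, rfl⟩ := Finset.mem_image.1 ha'
    obtain ⟨t', ht', h⟩ := hA.cls a ha
    rw [Finset.mem_singleton] at ht'
    subst ht'
    refine ⟨2 ^ v * t', Finset.mem_singleton_self _, ?_⟩
    rcases h with h | h
    · left
      have e : (2 ^ v * a - 2 ^ v * t' : ℤ) = 2 ^ v * (a - t') := by ring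
      simp only [e]
      exact (dvd_iff v Q 8 _).2 h
    · right
      have e : (2 ^ v * a + 2 ^ v * t' - 2 ^ v * δ : ℤ) = 2 ^ v * (a + t' - δ) := by ring
      simp only [e]
      exact (dvd_iff v Q 8 _).2 h
  · intro a' ha'
    constructor
    · intro h
      obtain ⟨a, ha, rfl⟩ := Finset.mem_image.1 h
      have h1 : |a| ≤ |W| := (abs_le_scale v a).trans (ha'.trans (le_abs_self W))
      obtain ⟨t', ht', h2⟩ := (hA.near a h1).1 ha
      rw [Finset.mem_singleton] at ht'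
      subst ht'
      refine ⟨2 ^ v * t', Finset.mem_singleton_self _, ?_⟩
      rcases h2 with h | h
      · left
        have e : (2 ^ v * a - 2 ^ v * t' : ℤ) = 2 ^ v * (a - t') := by ring
        simp only [e]
        exact (dvd_iff v Q 16 _).2 h
      · right
        have e : (2 ^ v * a + 2 ^ v * t' - 2 ^ v * δ : ℤ) = 2 ^ v * (a + t' - δ) := by ring
        simp only [e]
        exact (dvd_iff v Q 16 _).2 h
    · rintro ⟨t', ht', h⟩
      rw [Finset.mem_singleton] at ht'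
      subst ht'
      have h3 : (2 ^ v : ℤ) ∣ 16 * ((2 ^ v * Q : ℕ) : ℤ) := ⟨16 * Q, by push_cast; ring⟩
      have h4 : (2 ^ v : ℤ) ∣ a' := by
        rcases h with h | h
        · have h5 := dvd_add (h3.trans h) (Dvd.intro t rfl : (2 ^ v : ℤ) ∣ 2 ^ v * t)
          rwa [sub_add_cancel] at h5
        · have h5 := dvd_add (h3.trans h) (Dvd.intro (δ - t) rfl : (2 ^ v : ℤ) ∣ 2 ^ v * (δ - t))
          have e : a' + 2 ^ v * t - 2 ^ v * δ + 2 ^ v * (δ - t) = a' := by ring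
          rwa [e] at h5
      obtain ⟨a, rfl⟩ := h4
      refine Finset.mem_image.2 ⟨a, ?_, rfl⟩
      have h1 : |a| ≤ |W| := (abs_le_scale v a).trans (ha'.trans (le_abs_self W))
      refine (hA.near a h1).2 ⟨t, Finset.mem_singleton_self _, ?_⟩
      rcases h with h | h
      · left
        have e : (2 ^ v * a - 2 ^ v * t : ℤ) = 2 ^ v * (a - t) := by ring
        rw [e] at h
        exact (dvd_iff v Q 16 _).1 h
      · right
        have e : (2 ^ v * a + 2 ^ v * t - 2 ^ v * δ : ℤ) = 2 ^ v * (a + t - δ) := by ring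
        rw [e] at h
        exact (dvd_iff v Q 16 _).1 h
  · obtain ⟨a, ha, h⟩ := hA.far
    refine ⟨2 ^ v * a, Finset.mem_image_of_mem _ ha, ?_⟩
    have h0 : 0 ≤ a := (abs_nonneg W).trans h
    have h1 : (1 : ℤ) ≤ 2 ^ v := one_le_pow₀ (by norm_num)
    have h2 : W ≤ a := (le_abs_self W).trans h
    nlinarith
  · obtain ⟨c, hc0, h⟩ := hA.eq
    refine ⟨(2 ^ v) ^ A.card * c, by positivity, fun i hi => ?_⟩
    rw [bb_scale, PR_scale, h i hi]

end Pool.Agent.NH78.PY
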