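import Pool.Agent.NH78.PY.Stm
import Pool.Agent.NH9.PY.Core

/-! # PY-SET: the set `R` -/

set_option autoImplicit false

namespace Pool.Agent.NH78.PY

open Finset Polynomial
open Pool.Agent.NH9.PX (PR Ev Od)

namespace SET

open Pool.Agent.NH9.PX.SET (QE QO range_eq mem_Q)

lemma sum_Ev {D : ℕ} (hD : 1 ≤ D) (f : Finset ℕ → ℤ) :
    ∑ e ∈ Ev D, f e = (∑ e ∈ QE D, f e) + ∑ e ∈ QO D, f (insert 0 e) := by
  unfold Ev QE QO
  rw [sum_filter, sum_filter, sum_filter, range_eq hD, sum_powerset_insert (by simp)]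
  congr 1
  refine sum_congr rfl fun e he => ?_
  have h0 : (0 : ℕ) ∉ e := fun h => by
    have := mem_powerset.1 he h
    simp at this
  rw [card_insert_of_notMem h0]
  have : (e.card + 1) % 2 = 0 ↔ e.card % 2 = 1 := by omega
  simp only [this]

lemma sum_Od {D : ℕ} (hD : 1 ≤ D) (f : Finset ℕ → ℤ) :
    ∑ e ∈ Od D, f e = (∑ e ∈ QO D, f e) + ∑ e ∈ QE D, f (insert 0 e) := by
  unfold Od QE QO
  rw [sum_filter, sum_filter, sum_filter, range_eq hD, sum_powerset_insert (by simp)]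
  congr 1
  refine sum_congr rfl fun e he => ?_
  have h0 : (0 : ℕ) ∉ e := fun h => by
    have := mem_powerset.1 he h
    simp at this
  rw [card_insert_of_notMem h0]
  have : (e.card + 1) % 2 = 1 ↔ e.card % 2 = 0 := by omega
  simp only [this]

lemma card_QE_add_QO (D : ℕ) : (QE D).card + (QO D).card = 2 ^ (D - 1) := by
  have h18 : QO D = (Ico 1 D).powerset.filter fun e => ¬ e.card % 2 = 0 := by
    unfold QO
    refine filter_congr fun e _ => ?_
    omega
  rw [h18]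
  unfold QE
  rw [card_filter_add_card_filter_not, card_powerset, Nat.card_Ico]

lemma sum_odd (S : Finset (Finset ℕ)) (k : Finset ℕ → ℤ) (hk : ∀ e ∈ S, k e % 2 = 1) :
    (∑ e ∈ S, k e) % 2 = (S.card : ℤ) % 2 := by
  rw [sum_int_mod, sum_congr rfl hk]
  simp

end SET

open SET Pool.Agent.NH9.PX.SET in
theorem t_SET (hm : S_TOM) (ho : S_ORD) (hg : S_GAP) : S_SET := by
  classical
  intro Q δ t s D hQ hδ hδ2 ht hs hD W
  have hD1 : 1 ≤ D := by omega
  have hQ' : (1 : ℤ) ≤ Q := by exact_mod_cast hQ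
  obtain ⟨B', hB'⟩ := ho Q δ t s D hQ hδ hδ2 ht hs hD1 (|W| + (16 * Q) * (16 * Q))
  refine ⟨max B' (|W| + (16 * Q) * (16 * Q) + 16 * Q + 1), ?_⟩
  intro T u hT hTt hu
  have hT1 : B' ≤ T := (le_max_left _ _).trans hT
  have hT2 : |W| + (16 * Q) * (16 * Q) + 16 * Q + 1 ≤ T := (le_max_right _ _).trans hT
  obtain ⟨⟨ho1, ho2, ho3⟩, ho4, ho5, ho6⟩ := hB' T u hT1 hTt hu
  obtain ⟨hg1, -, -, -, -, -⟩ := hg Q δ s hQ hs
  have habs := abs_nonneg W
  have hWle := le_abs_self W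
  have hh : (0 : ℤ) < 16 * Q := by linarith
  have h16 : (0 : ℤ) ≤ (16 * Q) * (16 * Q) := by positivity
  obtain ⟨R, hR1, hR2, hR3, hR4, hR5⟩ := Pool.Agent.NH9.PY.core hh hD1 T
    (|W| + (16 * Q) * (16 * Q)) t (t + 8 * Q) u (by positivity) (by
      rintro ⟨c, hc⟩
      have h1 : (16 * (Q : ℤ)) * c = -(8 * Q) := by linarith
      have h2 : (8 * (Q : ℤ)) * (2 * c + 1) = 0 := by linarith
      rcases mul_eq_zero.1 h2 with h3 | h3
      · linarith
      · omega) ho1 ho2 ho4 (by linarith) ho5 (fun e he h0 => by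
        obtain ⟨h1, k, hk, h2⟩ := ho6 e he h0
        refine ⟨h1, ?_⟩
        have h3 : u (insert 0 e) - (if e.card % 2 = 0 then t else t + 8 * (Q : ℤ)) =
            (u e - (if e.card % 2 = 0 then t else t + 8 * (Q : ℤ))) - 16 * Q * k := by linarith
        rw [h3]
        exact dvd_sub h1 ⟨k, rfl⟩)
  -- the size
  have hempty : (∅ : Finset ℕ) ⊆ range D := empty_subset _
  have hsize : 16 * (Q : ℤ) * (R.card : ℤ) = ∑ e ∈ Od D, u e - ∑ e ∈ Ev D, u e := by
    rw [sum_Ev hD1, sum_Od hD1, hR4, sum_sub_distrib, sum_sub_distrib]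
    ring
  have heven : R.card % 2 = 0 := by
    have hk : ∀ e : Finset ℕ, ∃ k : ℤ, (e ⊆ range D ∧ 0 ∉ e) →
        k % 2 = 1 ∧ u e - u (insert 0 e) = 16 * Q * k := by
      intro e
      by_cases he : e ⊆ range D ∧ 0 ∉ e
      · obtain ⟨-, k, hk1, hk2⟩ := ho6 e he.1 he.2
        exact ⟨k, fun _ => ⟨hk1, hk2⟩⟩
      · exact ⟨0, fun h => absurd h he⟩
    choose k hk using hk
    have hE : ∀ e ∈ QE D, e ⊆ range D ∧ 0 ∉ e := fun e he => by
      unfold QE at he
      exact mem_Q (mem_filter.1 he).1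
    have hO : ∀ e ∈ QO D, e ⊆ range D ∧ 0 ∉ e := fun e he => by
      unfold QO at he
      exact mem_Q (mem_filter.1 he).1
    have h1 : 16 * (Q : ℤ) * (R.card : ℤ) =
        16 * Q * ((∑ e ∈ QO D, k e) - ∑ e ∈ QE D, k e) := by
      rw [hR4, sum_congr rfl fun e he => (hk e (hO e he)).2,
        sum_congr (s₁ := QE D) rfl fun e he => (hk e (hE e he)).2, ← mul_sum, ← mul_sum]
      ring
    have h2 : (R.card : ℤ) = (∑ e ∈ QO D, k e) - ∑ e ∈ QE D, k e :=
      mul_left_cancel₀ hh.ne' h1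
    have h3 := sum_odd (QO D) k fun e he => (hk e (hO e he)).1
    have h4 := sum_odd (QE D) k fun e he => (hk e (hE e he)).1
    have h5 := card_QE_add_QO D
    have h6 : 2 ^ (D - 1) % 2 = 0 := by
      obtain ⟨d, hd⟩ : ∃ d, D - 1 = d + 1 := ⟨D - 2, by omega⟩
      rw [hd, pow_succ]
      omega
    omega
  have hu0 : u ∅ * (1 - 16 * Q) = T := by
    have h1 := hu ∅ hempty
    have h2 : xi Q s ∅ = 1 - 16 * Q := by simp [xi]
    have h3 : eta Q δ s ∅ = 0 := by simp [eta]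
    rw [h2, h3] at h1
    linarith
  have hlarge : T ≤ 16 * Q * (16 * Q) * (R.card : ℤ) := by
    set h : ℤ := 16 * Q with hhd
    set n : ℤ := (-u ∅) / h with hn
    have hneg : h * h < - u ∅ := by linarith
    have hn0 : 0 ≤ n := Int.ediv_nonneg (by linarith [mul_self_nonneg h]) hh.le
    have hn1 : h * n ≤ - u ∅ := by
      have := Int.ediv_mul_le (-u ∅) hh.ne'
      linarith
    have hn2 : - u ∅ < h * n + h := by
      have := Int.lt_ediv_add_one_mul_self (-u ∅) hh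
      linarith
    have h4 := Pool.Agent.NH9.PY.telM hh (u ∅) (u ∅ + h * n)
      (by linarith [mul_nonneg hh.le hn0]) ⟨n, by ring⟩
    have h5 : Pool.Agent.NH9.PY.ivM h (u ∅) (u ∅ + h * n) ⊆ R := by
      intro a ha
      obtain ⟨h6, h7, h8⟩ := Pool.Agent.NH9.PY.mem_ivM.1 ha
      rw [hR2 a h6 (by linarith)]
      have h9 := (ho6 ∅ hempty (notMem_empty _)).1
      simp only [card_empty, Nat.zero_mod, if_true] at h9
      have := dvd_add h8 h9
      rwa [sub_add_sub_cancel] at this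
    have h7 : ((Pool.Agent.NH9.PY.ivM h (u ∅) (u ∅ + h * n)).card : ℤ) ≤ R.card := by
      exact_mod_cast card_le_card h5
    have h8 : ((Pool.Agent.NH9.PY.ivM h (u ∅) (u ∅ + h * n)).card : ℤ) = n := by
      have h9 := h4.2
      have h10 : h * ((Pool.Agent.NH9.PY.ivM h (u ∅) (u ∅ + h * n)).card : ℤ) = h * n := by
        linarith
      exact mul_left_cancel₀ hh.ne' h10
    rw [h8] at h7
    have h11 : h * h * n ≤ h * h * (R.card : ℤ) :=
      mul_le_mul_of_nonneg_left h7 (mul_self_nonneg h)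
    have h12 : h * (- u ∅) < h * (h * n + h) := mul_lt_mul_of_pos_left hn2 hh
    have h13 : T = h * (- u ∅) + u ∅ := by rw [← hu0]; ring
    have h14 : h * (h * n + h) = h * h * n + h * h := by ring
    linarith
  refine ⟨R, ⟨heven, ?_, ?_, ⟨T - 16 * Q, hR3, by linarith⟩, ?_⟩, hsize, hlarge⟩
  · intro a ha
    have h8 : (8 * (Q : ℤ)) ∣ 16 * Q := ⟨2, by ring⟩
    rcases hR1 a ha with h | h
    · exact h8.trans h
    · have h1 := h8.trans h
      have h2 := dvd_add h1 (dvd_refl (8 * (Q : ℤ)))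
      have h3 : a - (t + 8 * Q) + 8 * Q = a - t := by ring
      rwa [h3] at h2
  · intro a ha
    rw [abs_le] at ha
    exact hR2 a (by linarith) (by linarith)
  · -- the identity
    set Cn : ℤ := ∏ e ∈ Od D, xi Q s e with hCn
    set Cd : ℤ := ∏ e ∈ Ev D, xi Q s e with hCd
    have hCd0 : Cd ≠ 0 := by
      rw [hCd, prod_ne_zero_iff]
      intro e _ h0
      have := hg1 e
      omega
    refine ⟨(Cn : ℚ) / Cd, fun i hi => ?_⟩
    set x : ℤ := xx Q δ i with hx
    have hxe : x % 2 = 0 := by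
      obtain ⟨δ', hδ'⟩ : ∃ δ', δ = 2 * δ' := ⟨δ / 2, by omega⟩
      have h1 : x = 2 * (8 * Q * ((i / 2 : ℕ) : ℤ) + δ' * ((i % 2 : ℕ) : ℤ)) := by
        rw [hx, hδ']
        unfold xx
        ring
      rw [h1]
      exact Int.mul_emod_right _ _
    have hodd : ∀ z : ℤ, z % 2 = 1 → ¬ (16 * (Q : ℤ)) ∣ x - z := by
      rintro z hz ⟨c, hc⟩
      have h1 : x - z = 2 * (8 * Q * c) := by rw [hc]; ring
      omega
    have ht' : (t + 8 * (Q : ℤ)) % 2 = 1 := by omega
    have h3 := hR5 x (hodd t ht) (hodd _ ht')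
    have h4 := hm (xx Q δ) (fun j => (s j : ℤ)) (1 - 16 * Q) T D i hi
    have h4' : ∀ e, e ⊆ range D →
        xx Q δ i * (1 - 16 * (Q : ℤ) + ∑ j ∈ e, (s j : ℤ)) - (T + ∑ j ∈ e, xx Q δ j * (s j : ℤ)) =
          (x - u e) * xi Q s e := by
      intro e he
      have h5 := hu e he
      unfold eta at h5
      rw [← h5, ← hx]
      unfold xi
      ring
    have hEv : ∏ e ∈ Ev D, (xx Q δ i * (1 - 16 * (Q : ℤ) + ∑ j ∈ e, (s j : ℤ)) -
        (T + ∑ j ∈ e, xx Q δ j * (s j : ℤ))) = (∏ e ∈ Ev D, (x - u e)) * Cd := by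
      rw [hCd, ← prod_mul_distrib]
      refine prod_congr rfl fun e he => h4' e ?_
      unfold Ev at he
      exact mem_powerset.1 (mem_filter.1 he).1
    have hOd : ∏ e ∈ Od D, (xx Q δ i * (1 - 16 * (Q : ℤ) + ∑ j ∈ e, (s j : ℤ)) -
        (T + ∑ j ∈ e, xx Q δ j * (s j : ℤ))) = (∏ e ∈ Od D, (x - u e)) * Cn := by
      rw [hCn, ← prod_mul_distrib]
      refine prod_congr rfl fun e he => h4' e ?_
      unfold Od at he
      exact mem_powerset.1 (mem_filter.1 he).1
    rw [hEv, hOd] at h4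
    have h5 : (∏ e ∈ Od D, (x - u e)) ≠ 0 := by
      rw [prod_ne_zero_iff]
      intro e he h0
      unfold Od at he
      rw [mem_filter, mem_powerset] at he
      have h6 : u e % 2 = 1 := by
        by_cases h0e : 0 ∈ e
        · have h7 := ho6 (e.erase 0) ((erase_subset _ _).trans he.1) (notMem_erase _ _)
          rw [insert_erase h0e] at h7
          obtain ⟨⟨c, h8⟩, k, hk, h9⟩ := h7
          have e1 : 16 * (Q : ℤ) * c = 2 * (8 * Q * c) := by ring
          have e2 : 16 * (Q : ℤ) * k = 2 * (8 * Q * k) := by ring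
          rw [e1] at h8
          rw [e2] at h9
          generalize 8 * (Q : ℤ) * c = p at h8
          generalize 8 * (Q : ℤ) * k = r at h9
          split_ifs at h8 <;> omega
        · obtain ⟨⟨c, h8⟩, -⟩ := ho6 e he.1 h0e
          have e1 : 16 * (Q : ℤ) * c = 2 * (8 * Q * c) := by ring
          rw [e1] at h8
          generalize 8 * (Q : ℤ) * c = p at h8
          split_ifs at h8 <;> omega
      omega
    have h6 : PR R x * Cd = PR R (x - 16 * Q) * Cn := by
      apply mul_right_cancel₀ h5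
      calc PR R x * Cd * ∏ e ∈ Od D, (x - u e)
          = (PR R x * ∏ e ∈ Od D, (x - u e)) * Cd := by ring
        _ = PR R (x - 16 * Q) * ((∏ e ∈ Ev D, (x - u e)) * Cd) := by rw [h3]; ring
        _ = PR R (x - 16 * Q) * ((∏ e ∈ Od D, (x - u e)) * Cn) := by rw [h4]
        _ = PR R (x - 16 * Q) * Cn * ∏ e ∈ Od D, (x - u e) := by ring
    have h7 : (Cd : ℚ) ≠ 0 := by exact_mod_cast hCd0
    rw [div_mul_eq_mul_div, eq_div_iff h7]
    have h8 : (PR R x : ℚ) * Cd = PR R (x - 16 * Q) * Cn := by exact_mod_cast h6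
    rw [h8]
    ring

end Pool.Agent.NH78.PY
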