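import Pool.Agent.NH78.PY.Stm

/-!
# Project PY (helper78), part TEL: telescoping products over intervals with the step `h`
-/

set_option autoImplicit false

namespace Pool.Agent.NH78.PY

open Finset
open Pool.Agent.NH9.PX (PR)

namespace TEL

theorem iv_eq {h : ℤ} (hh : 0 < h) (lo : ℤ) (n : ℕ) :
    iv h lo (lo + h * n) = (range n).image (fun j : ℕ => lo + h * (j : ℤ)) := by
  ext a
  simp only [iv, mem_filter, mem_Ico, mem_image, mem_range]
  constructor
  · rintro ⟨⟨h1, h2⟩, h3⟩
    obtain ⟨c, hc⟩ := Int.dvd_of_emod_eq_zero h3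
    have hc0 : 0 ≤ c := by
      by_contra hneg
      push Not at hneg
      nlinarith
    have hcn : c < n := by
      by_contra hneg
      push Not at hneg
      nlinarith
    refine ⟨c.toNat, by omega, ?_⟩
    rw [Int.toNat_of_nonneg hc0, ← hc]
    ring
  · rintro ⟨j, hj, rfl⟩
    have hj' : (j : ℤ) < n := by exact_mod_cast hj
    refine ⟨⟨by nlinarith [Int.natCast_nonneg j], by nlinarith⟩, ?_⟩
    rw [add_sub_cancel_left, Int.mul_emod_right]

theorem inj {h : ℤ} (hh : 0 < h) (lo : ℤ) : Function.Injective (fun j : ℕ => lo + h * (j : ℤ)) := by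
  intro i j hij
  have h' : lo + h * (i : ℤ) = lo + h * (j : ℤ) := hij
  have h2 : h * (i : ℤ) = h * (j : ℤ) := by linarith
  exact_mod_cast mul_left_cancel₀ hh.ne' h2

theorem PR_iv {h : ℤ} (hh : 0 < h) (lo : ℤ) (n : ℕ) (x : ℤ) :
    PR (iv h lo (lo + h * n)) x = ∏ j ∈ range n, (x - (lo + h * (j : ℤ))) := by
  rw [PR, iv_eq hh, prod_image fun i _ j _ hij => inj hh lo hij]

theorem key (h lo x : ℤ) (n : ℕ) :
    (∏ j ∈ range n, (x - (lo + h * (j : ℤ)))) * (x - (lo + h * n)) =
      (x - lo) * ∏ j ∈ range n, (x - h - (lo + h * (j : ℤ))) := by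
  induction n with
  | zero => simp
  | succ n ih =>
    rw [prod_range_succ, prod_range_succ, ih]
    push_cast
    ring

end TEL

open TEL in
theorem t_TEL : S_TEL := by
  intro h lo hi hh h1 h2
  obtain ⟨n, rfl⟩ : ∃ n : ℕ, hi = lo + h * n := by
    obtain ⟨c, hc⟩ := h2
    have hc0 : 0 ≤ c := by
      by_contra hneg
      push Not at hneg
      nlinarith
    refine ⟨c.toNat, ?_⟩
    rw [Int.toNat_of_nonneg hc0, ← hc]
    ring
  refine ⟨fun x => ?_, ?_⟩
  · rw [PR_iv hh, PR_iv hh, key]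
  · rw [iv_eq hh, card_image_of_injective _ (inj hh lo), card_range]
    ring

end Pool.Agent.NH78.PY
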