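import Pool.Agent.NH78.PY.Stm

/-! # Project PY (helper78), PY-TEX: existence of `T` (helper30, after NH9/PX/TEX.lean) -/

set_option autoImplicit false

namespace Pool.Agent.NH78.PY

open Finset
open Pool.Agent.NH9.PX (PR Ev Od S_CRT)

namespace TEX

/-- the numbers `ξ e` are congruent to `1` modulo `8 Q` -/
theorem xi_one (hg : S_GAP) (Q : ℕ) (s : ℕ → ℕ) (hQ : 1 ≤ Q) (hs : Sq Q s) (e : Finset ℕ) :
    ∃ k : ℤ, xi Q s e = 1 + 8 * Q * k := by
  obtain ⟨-, -, -, h4, h5, -⟩ := hg Q 0 s hQ hs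
  have h : ∀ e : Finset ℕ, 0 ∉ e → ∃ k : ℤ, xi Q s e = 1 + 8 * Q * k := by
    intro e he
    obtain ⟨k, hk⟩ := h5 e he
    split_ifs at hk
    · exact ⟨2 * k, by linear_combination hk⟩
    · exact ⟨2 * k + 1, by linear_combination hk⟩
  by_cases h0 : 0 ∈ e
  · obtain ⟨k, hk⟩ := h (e.erase 0) (Finset.notMem_erase 0 e)
    have h1 := (h4 (e.erase 0) (Finset.notMem_erase 0 e)).1
    rw [Finset.insert_erase h0] at h1
    exact ⟨k + 2, by linear_combination h1 + hk⟩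
  · exact h e h0

theorem gcd_one (hg : S_GAP) (Q : ℕ) (s : ℕ → ℕ) (hQ : 1 ≤ Q) (hs : Sq Q s) (e : Finset ℕ) :
    Int.gcd (xi Q s e) (16 * Q) = 1 := by
  obtain ⟨k, hk⟩ := xi_one hg Q s hQ hs e
  have h1 : IsCoprime (xi Q s e) (8 * (Q : ℤ)) := ⟨1, -k, by linear_combination hk⟩
  have h2 : IsCoprime (xi Q s e) ((8 * (Q : ℤ)) ^ 2) := h1.pow_right
  have h3 : IsCoprime (xi Q s e) (16 * (Q : ℤ)) :=
    h2.of_isCoprime_of_dvd_right ⟨4 * Q, by ring⟩
  exact Int.isCoprime_iff_gcd_eq_one.1 h3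

end TEX

/-- existence of `T` -/
theorem t_TEX (hc : S_CRT) (hm : S_CMP) (hg : S_GAP) : S_TEX := by
  intro Q δ t s D hQ hs
  have hodd : ∀ e, xi Q s e % 2 = 1 := (hg Q δ s hQ hs).1
  have h0 : ∀ e, xi Q s e ≠ 0 := fun e h => by
    have := hodd e
    rw [h] at this
    simp at this
  have hQ0 : (0 : ℤ) < 16 * (Q : ℤ) := by
    have : (1 : ℤ) ≤ (Q : ℤ) := by exact_mod_cast hQ
    linarith
  obtain ⟨T0, hT0⟩ := hc (Option (Finset ℕ)) (insertNone (range D).powerset)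
    (fun o => o.elim (16 * (Q : ℤ)) (xi Q s)) (fun o => o.elim t (fun e => - eta Q δ s e)) (by
      rintro (_ | e) _
      · exact hQ0.ne'
      · exact h0 e) (by
      rintro (_ | e) _ (_ | f) _
      · exact (sub_self t).symm ▸ dvd_zero _
      · change ((Int.gcd (16 * (Q : ℤ)) (xi Q s f) : ℕ) : ℤ) ∣ _
        rw [Int.gcd_comm, TEX.gcd_one hg Q s hQ hs f]
        exact one_dvd _
      · change ((Int.gcd (xi Q s e) (16 * (Q : ℤ)) : ℕ) : ℤ) ∣ _
        rw [TEX.gcd_one hg Q s hQ hs e]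
        exact one_dvd _
      · change ((Int.gcd (xi Q s e) (xi Q s f) : ℕ) : ℤ) ∣ - eta Q δ s e - (- eta Q δ s f)
        have h := (hm Q δ s hQ hs e f).neg_right
        rwa [show -(eta Q δ s e - eta Q δ s f) = - eta Q δ s e - (- eta Q δ s f) by ring] at h)
  have h16 : (16 * (Q : ℤ)) ∣ T0 - t := hT0 none (by simp)
  have hxi : ∀ e ⊆ range D, xi Q s e ∣ T0 + eta Q δ s e := by
    intro e he
    have h := hT0 (some e) (by simpa using he)
    have h' : xi Q s e ∣ T0 - (- eta Q δ s e) := h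
    rwa [sub_neg_eq_add] at h'
  refine ⟨T0, 16 * Q * ∏ e ∈ (range D).powerset, |xi Q s e|, ?_, dvd_mul_right _ _, h16,
    fun e he => ⟨?_, hxi e he⟩⟩
  · exact mul_pos hQ0 (Finset.prod_pos fun e _ => abs_pos.2 (h0 e))
  · have h1 : |xi Q s e| ∣ ∏ e ∈ (range D).powerset, |xi Q s e| :=
      Finset.dvd_prod_of_mem _ (Finset.mem_powerset.2 he)
    exact ((dvd_abs _ _).2 dvd_rfl).trans (h1.trans (dvd_mul_left _ _))

end Pool.Agent.NH78.PY
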