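import Pool.Agent.NH78.PY.Stm

/-!
# The identity of tomography, general directions
-/

set_option autoImplicit false

namespace Pool.Agent.NH78.PY

open Finset
open Pool.Agent.NH9.PX (Ev Od)

namespace TOM

/-- add or remove the element `i` -/
def tog (i : ℕ) (e : Finset ℕ) : Finset ℕ := if i ∈ e then e.erase i else insert i e

theorem tog_tog (i : ℕ) (e : Finset ℕ) : tog i (tog i e) = e := by
  unfold tog
  by_cases h : i ∈ e
  · rw [if_pos h, if_neg (notMem_erase i e), insert_erase h]
  · rw [if_neg h, if_pos (mem_insert_self i e), erase_insert h]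

theorem tog_card (i : ℕ) (e : Finset ℕ) :
    (e.card % 2 = 0 → (tog i e).card % 2 = 1) ∧ (e.card % 2 = 1 → (tog i e).card % 2 = 0) := by
  unfold tog
  by_cases h : i ∈ e
  · rw [if_pos h]
    have h1 := card_erase_add_one h
    omega
  · rw [if_neg h, card_insert_of_notMem h]
    omega

theorem tog_sub {D i : ℕ} (hi : i < D) {e : Finset ℕ} (he : e ⊆ range D) : tog i e ⊆ range D := by
  unfold tog
  split_ifs with h
  · exact (erase_subset _ _).trans he
  · exact insert_subset (mem_range.mpr hi) he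

/-- the factor for the set `e` -/
def g (z s : ℕ → ℤ) (x₀ T : ℤ) (i : ℕ) (e : Finset ℕ) : ℤ :=
  z i * (x₀ + ∑ j ∈ e, s j) - (T + ∑ j ∈ e, z j * s j)

theorem g_insert (z s : ℕ → ℤ) (x₀ T : ℤ) (i : ℕ) (e : Finset ℕ) (h : i ∉ e) :
    g z s x₀ T i (insert i e) = g z s x₀ T i e := by
  unfold g
  rw [sum_insert h, sum_insert h]
  ring

theorem g_tog (z s : ℕ → ℤ) (x₀ T : ℤ) (i : ℕ) (e : Finset ℕ) :
    g z s x₀ T i (tog i e) = g z s x₀ T i e := by
  unfold tog
  by_cases h : i ∈ e
  · rw [if_pos h]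
    have h1 := g_insert z s x₀ T i (e.erase i) (notMem_erase i e)
    rw [insert_erase h] at h1
    exact h1.symm
  · rw [if_neg h]
    exact g_insert z s x₀ T i e h

end TOM

open TOM in
theorem t_TOM : S_TOM := by
  intro z s x₀ T D i hi
  refine prod_bij' (fun e _ => tog i e) (fun e _ => tog i e) (fun e he => ?_) (fun e he => ?_)
    (fun e _ => tog_tog i e) (fun e _ => tog_tog i e) (fun e he => ?_)
  · unfold Ev at he
    unfold Od
    rw [mem_filter, mem_powerset] at he ⊢
    exact ⟨tog_sub hi he.1, (tog_card i e).1 he.2⟩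
  · unfold Od at he
    unfold Ev
    rw [mem_filter, mem_powerset] at he ⊢
    exact ⟨tog_sub hi he.1, (tog_card i e).2 he.2⟩
  · exact (g_tog z s x₀ T i e).symm

end Pool.Agent.NH78.PY
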