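import Pool.Agent.NH78.PY.Stm

/-!
# PY-UNI: unions of classes
-/

set_option autoImplicit false

namespace Pool.Agent.NH78.PY

open Finset Polynomial
open Pool.Agent.NH9.PX (PR Ev Od S_CRT)

namespace UNI

lemma disj {Q : ℕ} {δ : ℤ} {𝒯 : Finset ℤ} {t : ℤ} {D : ℕ} {W : ℤ} {A₁ A₂ : Finset ℤ}
    (h : ∀ t' ∈ 𝒯, ¬ (8 * (Q : ℤ)) ∣ t - t' ∧ ¬ (8 * (Q : ℤ)) ∣ t + t' - δ)
    (h₁ : IsA Q δ 𝒯 D W A₁) (h₂ : IsA Q δ {t} D W A₂) : Disjoint A₁ A₂ := by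
  rw [Finset.disjoint_left]
  intro a ha₁ ha₂
  obtain ⟨t', ht', h3⟩ := h₁.cls a ha₁
  obtain ⟨t'', ht'', h4⟩ := h₂.cls a ha₂
  rw [mem_singleton] at ht''
  subst ht''
  obtain ⟨h5, h6⟩ := h t' ht'
  rcases h3 with h3 | h3 <;> rcases h4 with h4 | h4
  · exact h5 (by have := dvd_sub h3 h4; rwa [show a - t' - (a - t'') = t'' - t' by ring] at this)
  · exact h6 (by
      have := dvd_sub h4 h3
      rwa [show a + t'' - δ - (a - t') = t'' + t' - δ by ring] at this)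
  · exact h6 (by
      have := dvd_sub h3 h4
      rwa [show a + t' - δ - (a - t'') = t'' + t' - δ by ring] at this)
  · exact h5 (by
      have := dvd_sub h4 h3
      rwa [show a + t'' - δ - (a + t' - δ) = t'' - t' by ring] at this)

lemma union {Q : ℕ} {δ : ℤ} {𝒯 : Finset ℤ} {t : ℤ} {D : ℕ} {W : ℤ} {A₁ A₂ : Finset ℤ}
    (hd : Disjoint A₁ A₂)
    (h₁ : IsA Q δ 𝒯 D W A₁) (h₂ : IsA Q δ {t} D W A₂) :
    IsA Q δ (insert t 𝒯) D W (A₁ ∪ A₂) := by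
  constructor
  · intro a ha
    rcases mem_union.1 ha with h | h
    · obtain ⟨t', ht', h3⟩ := h₁.cls a h
      exact ⟨t', mem_insert_of_mem ht', h3⟩
    · obtain ⟨t', ht', h3⟩ := h₂.cls a h
      rw [mem_singleton] at ht'
      subst ht'
      exact ⟨t', mem_insert_self _ _, h3⟩
  · intro a ha
    rw [mem_union, h₁.near a ha, h₂.near a ha]
    constructor
    · rintro (⟨t', ht', h3⟩ | ⟨t', ht', h3⟩)
      · exact ⟨t', mem_insert_of_mem ht', h3⟩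
      · rw [mem_singleton] at ht'
        subst ht'
        exact ⟨t', mem_insert_self _ _, h3⟩
    · rintro ⟨t', ht', h3⟩
      rcases mem_insert.1 ht' with h | h
      · right
        exact ⟨t', mem_singleton.2 h, h3⟩
      · left
        exact ⟨t', h, h3⟩
  · obtain ⟨a, ha, h3⟩ := h₁.far
    exact ⟨a, mem_union_left _ ha, h3⟩
  · obtain ⟨c₁, hc₁, h3⟩ := h₁.eq
    obtain ⟨c₂, hc₂, h4⟩ := h₂.eq
    refine ⟨c₁ * c₂, mul_pos hc₁ hc₂, fun i hi => ?_⟩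
    have h5 : PR (A₁ ∪ A₂) (bb Q δ i) = PR A₁ (bb Q δ i) * PR A₂ (bb Q δ i) :=
      prod_union hd
    rw [h5, h3 i hi, h4 i hi]

end UNI

/-- PY-UNI: unions -/
theorem t_UNI : S_UNI := by
  intro Q δ 𝒯 t D hQ h hA hB
  obtain ⟨g, hg, hA⟩ := hA
  obtain ⟨g', hg', hB⟩ := hB
  refine ⟨g, hg, fun W => ?_⟩
  obtain ⟨r₁, h₁⟩ := hA W
  obtain ⟨r₂, h₂⟩ := hB W
  obtain ⟨A₂, hc₂, hA₂⟩ := h₂ 0
  refine ⟨r₁ + r₂, fun j => ?_⟩
  obtain ⟨A₁, hc₁, hA₁⟩ := h₁ j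
  have hd := UNI.disj h hA₁ hA₂
  refine ⟨A₁ ∪ A₂, ?_, UNI.union hd hA₁ hA₂⟩
  rw [card_union_of_disjoint hd, hc₁, hc₂]
  ring

end Pool.Agent.NH78.PY
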