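import Pool.Agent.NH9.PX.CRT
import Pool.Agent.NH78.PY.SEQ
import Pool.Agent.NH78.PY.GAP
import Pool.Agent.NH78.PY.CMP
import Pool.Agent.NH78.PY.TEX
import Pool.Agent.NH78.PY.TEL
import Pool.Agent.NH78.PY.TOM
import Pool.Agent.NH78.PY.ORD
import Pool.Agent.NH78.PY.SET
import Pool.Agent.NH78.PY.PRG
import Pool.Agent.NH78.PY.REF
import Pool.Agent.NH78.PY.SCL
import Pool.Agent.NH78.PY.UNI
import Pool.Agent.NH78.PY.PAR
import Pool.Agent.NH78.PY.GUE
import Pool.Agent.NH78.PY.GCL
import Pool.Agent.NH78.PY.GID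
import Pool.Agent.NH78.PY.EXC
import Pool.Agent.NH78.PY.GDT
import Pool.Agent.NH78.PY.ATT
import Pool.Agent.NH78.PY.ALL
import Pool.Agent.NH78.PY.DER
import Pool.Agent.NH78.PY.DAT

/-!
# Split integer polynomials with the same positive value at `k` integers, of every large degree
-/

set_option autoImplicit false

namespace Pool.Agent.NH78.PY

theorem t_SETS : S_SET := t_SET t_TOM (t_ORD t_GAP) t_GAP

theorem t_PRGS : S_PRG :=
  t_PRG t_SEQ (t_TEX Pool.Agent.NH9.PX.t_CRT (t_CMP t_GAP) t_GAP) t_SETS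

theorem t_ATTS : S_ATT := t_ATT t_PRGS t_REF t_SCL t_UNI

theorem t_GDTS : S_GDT := t_GDT t_PAR t_GUE t_GCL t_GID t_TOM

/-- For every `k` and all `n ≥ n₀ (k)` there are `n` distinct integers, the roots of a monic polynomial
which takes the same positive value at `k` integers. -/
theorem t_DATA : S_DAT := t_DAT (t_ALL t_GDTS t_ATTS t_EXC) t_DER

end Pool.Agent.NH78.PY
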