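import Pool.Agent.NH78.PY.Stm

/-!
# PY-GID: the identity for the gadgets
-/

set_option autoImplicit false

namespace Pool.Agent.NH78.PY

open Finset
open Pool.Agent.NH9.PX (PR Ev Od S_CRT)

namespace GID

theorem NN_pos {e : Finset ℕ} (he : e ≠ ∅) : 0 < NN e := by
  unfold NN
  exact Finset.sum_pos (fun i _ => by positivity) (Finset.nonempty_iff_ne_empty.2 he)

theorem mem_Ev {D : ℕ} {e : Finset ℕ} : e ∈ Ev D ↔ e ⊆ range D ∧ e.card % 2 = 0 := by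
  unfold Pool.Agent.NH9.PX.Ev
  rw [Finset.mem_filter, Finset.mem_powerset]

theorem mem_Od {D : ℕ} {e : Finset ℕ} : e ∈ Od D ↔ e ⊆ range D ∧ e.card % 2 = 1 := by
  unfold Pool.Agent.NH9.PX.Od
  rw [Finset.mem_filter, Finset.mem_powerset]

end GID

open GID in
theorem t_GID : S_GID := by
  classical
  intro hT E L y Q₁ k u hP hu
  obtain ⟨T, hTd⟩ : ∃ T : ℤ, T = -(L * y + 16 * (L * Q₁) * L * k) := ⟨_, rfl⟩
  have hT0 : 0 < -T := by
    have h1 := hP.L0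
    have h2 := hP.y1
    have h3 : 0 < y := by omega
    have h4 : (0 : ℤ) < L := by exact_mod_cast h1
    have h5 : (0 : ℤ) < y := by exact_mod_cast h3
    rw [hTd, neg_neg]
    positivity
  have hOne : ∀ e ∈ Od E, e ≠ ∅ := by
    intro e he h
    have := (mem_Od.1 he).2
    rw [h, Finset.card_empty] at this
    omega
  have hEe : ∅ ∈ Ev E := mem_Ev.2 ⟨Finset.empty_subset _, by simp⟩
  obtain ⟨a, ha⟩ : ∃ a : ℤ, a = ∏ e ∈ (Ev E).erase ∅, NN e := ⟨_, rfl⟩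
  obtain ⟨b, hb⟩ : ∃ b : ℤ, b = ∏ e ∈ Od E, NN e := ⟨_, rfl⟩
  have ha0 : 0 < a := by
    rw [ha]
    exact Finset.prod_pos fun e he => NN_pos (Finset.mem_erase.1 he).1
  have hb0 : 0 < b := by
    rw [hb]
    exact Finset.prod_pos fun e he => NN_pos (hOne e he)
  have hfac : ∀ (i : ℕ) (e : Finset ℕ), e ⊆ range E → e ≠ ∅ →
      bb (L * Q₁) (2 * L) i * (0 + ∑ j ∈ e, (2 : ℤ) ^ j) -
        (T + ∑ j ∈ e, bb (L * Q₁) (2 * L) j * (2 : ℤ) ^ j) =
      NN e * (bb (L * Q₁) (2 * L) i - u e) := by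
    intro i e he hne
    have h1 := hu e he hne
    rw [← hTd] at h1
    rw [← h1]
    unfold NN
    ring
  have hmain : ∀ i < E, (∏ e ∈ Od E, (bb (L * Q₁) (2 * L) i - u e)) * b =
      (-T * a) * ∏ e ∈ (Ev E).erase ∅, (bb (L * Q₁) (2 * L) i - u e) := by
    intro i hi
    have h1 := hT (fun j => bb (L * Q₁) (2 * L) j) (fun j => (2 : ℤ) ^ j) 0 T E i hi
    rw [← Finset.mul_prod_erase _ _ hEe] at h1
    have h2 : ∏ e ∈ (Ev E).erase ∅, (bb (L * Q₁) (2 * L) i * (0 + ∑ j ∈ e, (2 : ℤ) ^ j) -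
        (T + ∑ j ∈ e, bb (L * Q₁) (2 * L) j * (2 : ℤ) ^ j)) =
        a * ∏ e ∈ (Ev E).erase ∅, (bb (L * Q₁) (2 * L) i - u e) := by
      rw [ha, ← Finset.prod_mul_distrib]
      refine Finset.prod_congr rfl fun e he => ?_
      rw [Finset.mem_erase] at he
      exact hfac i e (mem_Ev.1 he.2).1 he.1
    have h3 : ∏ e ∈ Od E, (bb (L * Q₁) (2 * L) i * (0 + ∑ j ∈ e, (2 : ℤ) ^ j) -
        (T + ∑ j ∈ e, bb (L * Q₁) (2 * L) j * (2 : ℤ) ^ j)) =
        b * ∏ e ∈ Od E, (bb (L * Q₁) (2 * L) i - u e) := by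
      rw [hb, ← Finset.prod_mul_distrib]
      exact Finset.prod_congr rfl fun e he => hfac i e (mem_Od.1 he).1 (hOne e he)
    rw [h2, h3] at h1
    simp only [Finset.sum_empty, add_zero, mul_zero, zero_sub] at h1
    rw [mul_comm, ← h1]
    ring
  have hbQ : (0 : ℚ) < b := by exact_mod_cast hb0
  have haQ : (0 : ℚ) < a := by exact_mod_cast ha0
  have hTQ : (0 : ℚ) < -(T : ℚ) := by exact_mod_cast hT0
  refine ⟨(-(T : ℚ) * a) / b, by positivity, ?_⟩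
  intro i hi
  have h1 := hmain i hi
  have h2 : ((∏ e ∈ Od E, (bb (L * Q₁) (2 * L) i - u e) : ℤ) : ℚ) * b =
      (-(T : ℚ) * a) * ((∏ e ∈ (Ev E).erase ∅, (bb (L * Q₁) (2 * L) i - u e) : ℤ) : ℚ) := by
    exact_mod_cast h1
  rw [div_mul_eq_mul_div, eq_div_iff hbQ.ne']
  exact h2

end Pool.Agent.NH78.PY
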