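import Pool.Agent.NH9.PX.Stm

/-!
# Project PY (helper78), MP_176ace_nt: split integer polynomials with equal values, for ALL large degrees

Extension of project PX (helper9): for every `k` and ALL `n ≥ n₀ (k)` there are `n` distinct integers
`a 1, ..., a n` such that `∏ (X - a i)` takes the same positive value at `k` integers.

(1) The construction of PX, with the step `h = 16 Q` instead of `16` and for every odd class `t` modulo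
`16 Q`: the roots are in the classes `± t, ± t + 8 Q` (up to the reflection), and near `0` they are exactly
the classes `t` and `δ - t` modulo `16 Q`; the number of the roots is `r₀ + g j`, `j = 0, 1, 2, ...`.
(2) The scaling by `2 ^ v`, and unions over finitely many classes.
(3) Gadgets: with `ξ e = ∑_{i ∈ e} 2 ^ i`, so `ξ ∅ = 0`, the identity of tomography has one factor less on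
one side. So `2 ^ (E - 1) - 1` roots near `0` can be replaced by `2 ^ (E - 1)` other roots, and the number of
the roots increases by one.
-/

set_option autoImplicit false

namespace Pool.Agent.NH78.PY

open Finset Polynomial
open Pool.Agent.NH9.PX (PR Ev Od S_CRT)

/-- the directions `0, δ, 16 Q, 16 Q + δ, 32 Q, ...` -/
def xx (Q : ℕ) (δ : ℤ) (i : ℕ) : ℤ := 16 * Q * ((i / 2 : ℕ) : ℤ) + δ * ((i % 2 : ℕ) : ℤ)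

/-- the points at which the values will be equal -/
def bb (Q : ℕ) (δ : ℤ) (i : ℕ) : ℤ := xx Q δ i - 16 * Q

/-- the conditions on the sequence `s` -/
structure Sq (Q : ℕ) (s : ℕ → ℕ) : Prop where
  h0 : s 0 = 16 * Q
  h8 : ∀ i, 1 ≤ i → s i % (16 * Q) = 8 * Q
  hd : ∀ i, 1 ≤ i → ∀ d : ℕ, d % 2 = 1 → d ≤ 16 * Q + ∑ j ∈ range i, s j → d ∣ s i
  hg : ∀ i, 1 ≤ i → 8 * (16 * Q + ∑ j ∈ range i, s j) ≤ s i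

/-- `ξ` -/
def xi (Q : ℕ) (s : ℕ → ℕ) (e : Finset ℕ) : ℤ := 1 - 16 * Q + ∑ i ∈ e, (s i : ℤ)

/-- `η` -/
def eta (Q : ℕ) (δ : ℤ) (s : ℕ → ℕ) (e : Finset ℕ) : ℤ := ∑ i ∈ e, xx Q δ i * (s i : ℤ)

/-- `u e` is the quotient of `T + η e` by `ξ e` -/
def UU (Q : ℕ) (δ : ℤ) (s : ℕ → ℕ) (D : ℕ) (T : ℤ) (u : Finset ℕ → ℤ) : Prop :=
  ∀ e ⊆ range D, u e * xi Q s e = T + eta Q δ s e

/-- the interval with step `h` -/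
noncomputable def iv (h lo hi : ℤ) : Finset ℤ := (Ico lo hi).filter fun a => (a - lo) % h = 0

/-- PY-SEQ: the sequence -/
def S_SEQ : Prop := ∀ Q : ℕ, 1 ≤ Q → ∃ s, Sq Q s

/-- PY-GAP: the order and the residues of the numbers `ξ` -/
def S_GAP : Prop := ∀ (Q : ℕ) (δ : ℤ) (s : ℕ → ℕ), 1 ≤ Q → Sq Q s →
  (∀ e, xi Q s e % 2 = 1) ∧
  (∀ e f, 0 ∉ e → 0 ∉ f → e ≠ f →
    xi Q s e + 16 * Q + 1 ≤ xi Q s f ∨ xi Q s f + 16 * Q + 1 ≤ xi Q s e) ∧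
  (∀ e, 0 ∉ e → e ≠ ∅ → 100 * (Q : ℤ) ≤ xi Q s e) ∧
  (∀ e, 0 ∉ e → xi Q s (insert 0 e) = xi Q s e + 16 * Q ∧
    eta Q δ s (insert 0 e) = eta Q δ s e) ∧
  (∀ e, 0 ∉ e → (16 * (Q : ℤ)) ∣ xi Q s e - (if e.card % 2 = 0 then 1 else 1 + 8 * (Q : ℤ))) ∧
  (∀ e f, xi Q s e = xi Q s f → e = f)

/-- PY-CMP: compatibility of the congruences -/
def S_CMP : Prop := ∀ (Q : ℕ) (δ : ℤ) (s : ℕ → ℕ), 1 ≤ Q → Sq Q s → ∀ e f : Finset ℕ,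
  ((Int.gcd (xi Q s e) (xi Q s f) : ℕ) : ℤ) ∣ eta Q δ s e - eta Q δ s f

/-- PY-TEX: existence of `T` -/
def S_TEX : Prop := ∀ (Q : ℕ) (δ t : ℤ) (s : ℕ → ℕ) (D : ℕ), 1 ≤ Q → Sq Q s →
  ∃ T₀ M : ℤ, 0 < M ∧ (16 * (Q : ℤ)) ∣ M ∧ (16 * (Q : ℤ)) ∣ T₀ - t ∧
    ∀ e ⊆ range D, xi Q s e ∣ M ∧ xi Q s e ∣ T₀ + eta Q δ s e

/-- PY-TEL: telescoping products over intervals -/
def S_TEL : Prop := ∀ h lo hi : ℤ, 0 < h → lo ≤ hi → h ∣ hi - lo →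
  (∀ x : ℤ, PR (iv h lo hi) x * (x - hi) = (x - lo) * PR (iv h lo hi) (x - h)) ∧
  h * ((iv h lo hi).card : ℤ) = hi - lo

/-- PY-TOM: the identity of tomography -/
def S_TOM : Prop := ∀ (z s : ℕ → ℤ) (x₀ T : ℤ) (D i : ℕ), i < D →
  ∏ e ∈ Ev D, (z i * (x₀ + ∑ j ∈ e, s j) - (T + ∑ j ∈ e, z j * s j)) =
    ∏ e ∈ Od D, (z i * (x₀ + ∑ j ∈ e, s j) - (T + ∑ j ∈ e, z j * s j))

/-- PY-ORD: the order and the residues of the numbers `u e`, for large `T` -/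
def S_ORD : Prop := ∀ (Q : ℕ) (δ t : ℤ) (s : ℕ → ℕ) (D : ℕ), 1 ≤ Q → 0 ≤ δ → δ % 2 = 0 →
  t % 2 = 1 → Sq Q s → 1 ≤ D → ∀ W : ℤ, ∃ B' : ℤ, ∀ (T : ℤ) (u : Finset ℕ → ℤ),
  B' ≤ T → (16 * (Q : ℤ)) ∣ T - t → UU Q δ s D T u →
  (u {0} = T ∧ u ∅ < -W ∧ W ≤ T - 16 * Q) ∧
  (∀ e ⊆ range D, 0 ∉ e → e ≠ ∅ →
    W < u (insert 0 e) ∧ u (insert 0 e) < u e ∧ u e ≤ T - 16 * Q) ∧
  (∀ e ⊆ range D, ∀ f ⊆ range D, 0 ∉ e → 0 ∉ f → e ≠ ∅ → f ≠ ∅ → e ≠ f →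
    u f ≤ u (insert 0 e) ∨ u e ≤ u (insert 0 f)) ∧
  (∀ e ⊆ range D, 0 ∉ e →
    (16 * (Q : ℤ)) ∣ u e - (if e.card % 2 = 0 then t else t + 8 * (Q : ℤ)) ∧
    ∃ k : ℤ, k % 2 = 1 ∧ u e - u (insert 0 e) = 16 * Q * k)

/-- the properties of the set `R` -/
structure IsR (Q : ℕ) (δ t : ℤ) (D : ℕ) (W : ℤ) (R : Finset ℤ) : Prop where
  even : R.card % 2 = 0
  cls : ∀ a ∈ R, (8 * (Q : ℤ)) ∣ a - t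
  near : ∀ a : ℤ, |a| ≤ W → (a ∈ R ↔ (16 * (Q : ℤ)) ∣ a - t)
  far : ∃ a ∈ R, W ≤ a
  eq : ∃ C : ℚ, ∀ i < D, (PR R (xx Q δ i) : ℚ) = C * PR R (xx Q δ i - 16 * Q)

/-- PY-SET: the set `R` -/
def S_SET : Prop := ∀ (Q : ℕ) (δ t : ℤ) (s : ℕ → ℕ) (D : ℕ), 1 ≤ Q → 0 ≤ δ → δ % 2 = 0 →
  t % 2 = 1 → Sq Q s → 2 ≤ D → ∀ W : ℤ, ∃ B' : ℤ, ∀ (T : ℤ) (u : Finset ℕ → ℤ),
  B' ≤ T → (16 * (Q : ℤ)) ∣ T - t → UU Q δ s D T u → ∃ R : Finset ℤ, IsR Q δ t D W R ∧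
    16 * (Q : ℤ) * (R.card : ℤ) = ∑ e ∈ Od D, u e - ∑ e ∈ Ev D, u e ∧
    T ≤ 16 * Q * (16 * Q) * (R.card : ℤ)

/-- PY-PRG: the numbers of elements of `R` contain an arithmetic progression, with a difference
independent of `W` -/
def S_PRG : Prop := ∀ (Q : ℕ) (δ t : ℤ) (D : ℕ), 1 ≤ Q → 0 ≤ δ → δ % 2 = 0 → t % 2 = 1 → 2 ≤ D →
  ∃ g : ℕ, 0 < g ∧ ∀ W : ℤ, ∃ r₀ : ℕ, ∀ j : ℕ, ∃ R : Finset ℤ, R.card = r₀ + g * j ∧ IsR Q δ t D W R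

/-- the properties of the set `A` of the roots, for the finite set `𝒯` of classes -/
structure IsA (Q : ℕ) (δ : ℤ) (𝒯 : Finset ℤ) (D : ℕ) (W : ℤ) (A : Finset ℤ) : Prop where
  cls : ∀ a ∈ A, ∃ t ∈ 𝒯, (8 * (Q : ℤ)) ∣ a - t ∨ (8 * (Q : ℤ)) ∣ a + t - δ
  near : ∀ a : ℤ, |a| ≤ W →
    (a ∈ A ↔ ∃ t ∈ 𝒯, (16 * (Q : ℤ)) ∣ a - t ∨ (16 * (Q : ℤ)) ∣ a + t - δ)
  far : ∃ a ∈ A, W ≤ a
  eq : ∃ c : ℤ, 0 < c ∧ ∀ i < D + 2, PR A (bb Q δ i) = c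

/-- there are such sets `A`, for all `W`, with numbers of elements in a progression -/
def Good (Q : ℕ) (δ : ℤ) (𝒯 : Finset ℤ) (D : ℕ) : Prop := ∃ g : ℕ, 0 < g ∧
  ∀ W : ℤ, ∃ r₀ : ℕ, ∀ j : ℕ, ∃ A : Finset ℤ, A.card = r₀ + g * j ∧ IsA Q δ 𝒯 D W A

/-- PY-REF: adding the reflection -/
def S_REF : Prop := ∀ (Q : ℕ) (δ t : ℤ) (D : ℕ) (W : ℤ) (R : Finset ℤ), 1 ≤ Q → 0 < δ →
  δ % 2 = 0 → t % 2 = 1 → δ < t % (8 * Q) → ¬ (8 * (Q : ℤ)) ∣ 2 * t - δ → D % 4 = 0 → 4 ≤ D →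
  IsR Q δ t D (|W| + 16 * Q * (D + 2)) R → ∃ A : Finset ℤ, A.card = 2 * R.card ∧ IsA Q δ {t} D W A

/-- PY-SCL: scaling by a power of two -/
def S_SCL : Prop := ∀ (v Q : ℕ) (δ t : ℤ) (D : ℕ), 1 ≤ Q → Good Q δ {t} D →
  Good (2 ^ v * Q) (2 ^ v * δ) {2 ^ v * t} D

/-- PY-UNI: unions -/
def S_UNI : Prop := ∀ (Q : ℕ) (δ : ℤ) (𝒯 : Finset ℤ) (t : ℤ) (D : ℕ), 1 ≤ Q →
  (∀ t' ∈ 𝒯, ¬ (8 * (Q : ℤ)) ∣ t - t' ∧ ¬ (8 * (Q : ℤ)) ∣ t + t' - δ) →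
  Good Q δ 𝒯 D → Good Q δ {t} D → Good Q δ (insert t 𝒯) D

/-! ### Gadgets -/

/-- the conditions on the parameters of the gadgets -/
structure Par (E L y Q₁ : ℕ) : Prop where
  E2 : 2 ≤ E
  L0 : 0 < L
  L1 : ∀ N : ℕ, 1 ≤ N → N < 2 ^ E → N ∣ L
  y1 : y % 2 = 1
  y2 : 2 ^ (2 * E + 3) ≤ y
  Q1 : y * 2 ^ (E + 3) ≤ Q₁

/-- the numbers `ξ e` of the gadgets -/
def NN (e : Finset ℕ) : ℤ := ∑ i ∈ e, (2 : ℤ) ^ i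

/-- `u` gives the points of the gadget number `k` -/
def GU (E L y Q₁ k : ℕ) (u : Finset ℕ → ℤ) : Prop := ∀ e ⊆ range E, e ≠ ∅ →
  u e * NN e = -(L * y + 16 * (L * Q₁) * L * k) + ∑ i ∈ e, bb (L * Q₁) (2 * L) i * 2 ^ i

/-- PY-PAR: parameters exist -/
def S_PAR : Prop := ∀ E : ℕ, 2 ≤ E → ∃ L y Q₁ : ℕ, Par E L y Q₁

/-- PY-GUE: the points of the gadgets -/
def S_GUE : Prop := ∀ E L y Q₁ : ℕ, Par E L y Q₁ → ∃ u : ℕ → Finset ℕ → ℤ,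
  (∀ k, GU E L y Q₁ k (u k)) ∧
  (∀ k, ∀ e ⊆ range E, e ≠ ∅ → (16 * ((L * Q₁ : ℕ) : ℤ)) ∣ u k e - u 0 e) ∧
  (∀ k l, k < l → ∀ e ⊆ range E, e ≠ ∅ → u l e < u k e) ∧
  ∀ W : ℤ, ∃ k₀ : ℕ, ∀ k ≥ k₀, ∀ e ⊆ range E, e ≠ ∅ → u k e < -W

/-- PY-GCL: the classes of the points of the gadgets -/
def S_GCL : Prop := ∀ (E L y Q₁ k l : ℕ) (u u' : Finset ℕ → ℤ), Par E L y Q₁ → GU E L y Q₁ k u →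
  GU E L y Q₁ l u' → ∀ e ⊆ range E, e ≠ ∅ →
  (∀ f ⊆ range E, f ≠ ∅ → (e ≠ f → ¬ (8 * ((L * Q₁ : ℕ) : ℤ)) ∣ u e - u' f) ∧
    ¬ (8 * ((L * Q₁ : ℕ) : ℤ)) ∣ u e + u' f - 2 * L) ∧
  (2 * L : ℤ) < u e % (8 * ((L * Q₁ : ℕ) : ℤ)) ∧
  ∃ (v : ℕ) (t : ℤ), t % 2 = 1 ∧ u e = 2 ^ v * t ∧ 2 ^ v ∣ L

/-- PY-GID: the identity for the gadgets -/
def S_GID : Prop := S_TOM → ∀ (E L y Q₁ k : ℕ) (u : Finset ℕ → ℤ), Par E L y Q₁ →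
  GU E L y Q₁ k u → ∃ C : ℚ, 0 < C ∧ ∀ i < E,
    ((∏ e ∈ Od E, (bb (L * Q₁) (2 * L) i - u e) : ℤ) : ℚ) =
      C * ((∏ e ∈ (Ev E).erase ∅, (bb (L * Q₁) (2 * L) i - u e) : ℤ) : ℚ)

/-- a gadget: the set `G'` of roots can be replaced by the set `G`, which has one element more -/
structure IsG (Q : ℕ) (δ : ℤ) (D : ℕ) (G G' : Finset ℤ) : Prop where
  card : G.card = G'.card + 1
  eq : ∃ C : ℚ, 0 < C ∧ ∀ i < D + 2, (PR G (bb Q δ i) : ℚ) = C * PR G' (bb Q δ i)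
  ne : ∀ i < D + 2, PR G' (bb Q δ i) ≠ 0

/-- PY-EXC: the exchange -/
def S_EXC : Prop := ∀ (Q : ℕ) (δ : ℤ) (D m : ℕ) (A : Finset ℤ) (G G' : ℕ → Finset ℤ),
  (∃ c : ℤ, 0 < c ∧ ∀ i < D + 2, PR A (bb Q δ i) = c) →
  (∀ k < m, IsG Q δ D (G k) (G' k)) → (∀ k < m, G' k ⊆ A) → (∀ k < m, Disjoint (G k) A) →
  (∀ k < m, ∀ l < m, k ≠ l → Disjoint (G k) (G l) ∧ Disjoint (G' k) (G' l)) →
  ∃ A' : Finset ℤ, A'.card = A.card + m ∧ (∃ c : ℤ, 0 < c ∧ ∀ i < D + 2, PR A' (bb Q δ i) = c) ∧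
    (∀ a ∈ A', a ∈ A ∨ ∃ k < m, a ∈ G k) ∧ ∀ a ∈ A, a ∉ A' → ∃ k < m, a ∈ G' k

/-- PY-GDT: the gadgets and the finite set of classes -/
def S_GDT : Prop := ∀ D : ℕ, 4 ≤ D → ∃ (Q : ℕ) (δ : ℤ) (𝒯 : Finset ℤ), 1 ≤ Q ∧ 0 < δ ∧
  δ < 8 * Q ∧ 𝒯.Nonempty ∧
  (∀ t ∈ 𝒯, δ < t % (8 * Q) ∧ ¬ (8 * (Q : ℤ)) ∣ 2 * t - δ ∧
    ∃ (v Q' : ℕ) (δ' t' : ℤ), t' % 2 = 1 ∧ δ' % 2 = 0 ∧ Q = 2 ^ v * Q' ∧ δ = 2 ^ v * δ' ∧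
      t = 2 ^ v * t') ∧
  (∀ t ∈ 𝒯, ∀ t' ∈ 𝒯, t ≠ t' → ¬ (8 * (Q : ℤ)) ∣ t - t' ∧ ¬ (8 * (Q : ℤ)) ∣ t + t' - δ) ∧
  ∀ (m : ℕ) (W₀ : ℤ), ∃ (W : ℤ) (G G' : ℕ → Finset ℤ), W₀ ≤ W ∧
    (∀ k < m, IsG Q δ D (G k) (G' k) ∧ (∀ a ∈ G k, -W ≤ a ∧ a < -W₀) ∧
      (∀ a ∈ G' k, -W ≤ a ∧ a < -W₀) ∧ (∀ a ∈ G' k, ∃ t ∈ 𝒯, (16 * (Q : ℤ)) ∣ a - t) ∧
      ∀ a ∈ G k, δ < a % (16 * Q) ∧
        ∀ t ∈ 𝒯, ¬ (16 * (Q : ℤ)) ∣ a - t ∧ ¬ (16 * (Q : ℤ)) ∣ a + t - δ) ∧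
    ∀ k < m, ∀ l < m, k ≠ l → Disjoint (G k) (G l) ∧ Disjoint (G' k) (G' l)

/-- PY-ATT: all classes -/
def S_ATT : Prop := ∀ (Q : ℕ) (δ : ℤ) (𝒯 : Finset ℤ) (D : ℕ), 1 ≤ Q → 0 < δ → 𝒯.Nonempty →
  D % 4 = 0 → 4 ≤ D →
  (∀ t ∈ 𝒯, δ < t % (8 * Q) ∧ ¬ (8 * (Q : ℤ)) ∣ 2 * t - δ ∧
    ∃ (v Q' : ℕ) (δ' t' : ℤ), t' % 2 = 1 ∧ δ' % 2 = 0 ∧ Q = 2 ^ v * Q' ∧ δ = 2 ^ v * δ' ∧
      t = 2 ^ v * t') →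
  (∀ t ∈ 𝒯, ∀ t' ∈ 𝒯, t ≠ t' → ¬ (8 * (Q : ℤ)) ∣ t - t' ∧ ¬ (8 * (Q : ℤ)) ∣ t + t' - δ) →
  Good Q δ 𝒯 D

/-- PY-ALL: all large `n` -/
def S_ALL : Prop := ∀ D : ℕ, D % 4 = 0 → 4 ≤ D → ∃ (Q : ℕ) (δ : ℤ) (n₀ : ℕ), 1 ≤ Q ∧ 0 < δ ∧
  δ < 8 * Q ∧ ∀ n ≥ n₀, ∃ A : Finset ℤ, A.card = n ∧
    (∃ c : ℤ, 0 < c ∧ ∀ i < D + 2, PR A (bb Q δ i) = c) ∧ (∀ a ∈ A, δ < a % (16 * Q)) ∧
    ∃ a ∈ A, 16 * Q * ((D : ℤ) + 2) ≤ a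

/-- PY-DER: the derivative -/
def S_DER : Prop := ∀ (A : Finset ℤ) (b δ : ℤ), 0 < δ → A.Nonempty →
  (∀ a ∈ A, a < b ∨ b + δ < a) → PR A b = PR A (b + δ) →
  (derivative (∏ a ∈ A, (X - C a))).eval b ≠ 0 ∧ (derivative (∏ a ∈ A, (X - C a))).eval (b + δ) ≠ 0

/-- PY-DAT: the data for the theorem on class groups -/
def S_DAT : Prop := ∀ k : ℕ, ∃ n₀ : ℕ, ∀ n ≥ n₀, Nonempty (Pool.Agent.W289.CG.Dat n k)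

end Pool.Agent.NH78.PY
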